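import Pool.Agent.Q33.R154.Main

set_option autoImplicit false

namespace Pool.Agent.Q33.R154

open Finset Pool.Agent.Q33.Fam

/-- `c_j = (6j)! / ((3j)! (j!)^3)` -/
noncomputable def c (j : ℕ) : ℚ := ((6 * j).factorial : ℚ) / (((3 * j).factorial : ℚ) * (j.factorial : ℚ) ^ 3)

/-- the numbers `a_n` of the problem -/
noncomputable def a (n : ℕ) : ℚ :=
  (∑ j ∈ range n, (154 * (j : ℚ) + 15) * c j * (-32768) ^ (n - 1 - j)) /
    (10 * n * (2 * n + 1) * ((2 * n).choose n : ℚ))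

lemma c_eq (j : ℕ) : c j = ((w6 j : ℤ) : ℚ) := by
  have h1 := Nat.choose_mul_factorial_mul_factorial (n := 6 * j) (k := 3 * j) (by omega)
  have h2 := Nat.choose_mul_factorial_mul_factorial (n := 3 * j) (k := j) (by omega)
  have h3 := Nat.choose_mul_factorial_mul_factorial (n := 2 * j) (k := j) (by omega)
  have e1 : 6 * j - 3 * j = 3 * j := by omega
  have e2 : 3 * j - j = 2 * j := by omega
  have e3 : 2 * j - j = j := by omega
  rw [e1] at h1
  rw [e2] at h2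
  rw [e3] at h3
  have f1 : (((6 * j).choose (3 * j) : ℕ) : ℚ) * ((3 * j).factorial : ℚ) * ((3 * j).factorial : ℚ) = ((6 * j).factorial : ℚ) := by
    exact_mod_cast h1
  have f2 : (((3 * j).choose j : ℕ) : ℚ) * (j.factorial : ℚ) * ((2 * j).factorial : ℚ) = ((3 * j).factorial : ℚ) := by
    exact_mod_cast h2
  have f3 : (((2 * j).choose j : ℕ) : ℚ) * (j.factorial : ℚ) * (j.factorial : ℚ) = ((2 * j).factorial : ℚ) := by
    exact_mod_cast h3
  have n1 : ((3 * j).factorial : ℚ) ≠ 0 := by exact_mod_cast Nat.factorial_ne_zero _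
  have n2 : (j.factorial : ℚ) ≠ 0 := by exact_mod_cast Nat.factorial_ne_zero _
  unfold c w6 u6 cb
  push_cast
  rw [div_eq_iff (by positivity), ← f1]
  linear_combination (-(((6 * j).choose (3 * j) : ℕ) : ℚ) * ((3 * j).factorial : ℚ)) * f2 -
    ((((6 * j).choose (3 * j) : ℕ) : ℚ) * ((3 * j).factorial : ℚ) * (((3 * j).choose j : ℕ) : ℚ) * (j.factorial : ℚ)) * f3

lemma a_eq (n : ℕ) (hn : 1 ≤ n) (h4 : 4 * SS n = n * cb n * X n) :
    a n = ((X n : ℤ) : ℚ) / ((40 * (2 * (n : ℤ) + 1) : ℤ) : ℚ) := by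
  have hs : (∑ j ∈ range n, (154 * (j : ℚ) + 15) * c j * (-32768) ^ (n - 1 - j)) = ((SS n : ℤ) : ℚ) := by
    unfold SS S
    push_cast
    apply sum_congr rfl
    intro j _
    rw [c_eq]
  unfold a
  rw [hs]
  have h : (4 : ℚ) * ((SS n : ℤ) : ℚ) = n * ((2 * n).choose n : ℚ) * ((X n : ℤ) : ℚ) := by
    have : ((4 * SS n : ℤ) : ℚ) = ((n * cb n * X n : ℤ) : ℚ) := by rw [h4]
    unfold cb at this
    push_cast at this
    exact this
  have n1 : (n : ℚ) ≠ 0 := by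
    have : n ≠ 0 := by omega
    exact_mod_cast this
  have n2 : (((2 * n).choose n : ℕ) : ℚ) ≠ 0 := by
    have : 0 < (2 * n).choose n := Nat.choose_pos (by omega)
    exact_mod_cast this.ne'
  have n3 : (2 * (n : ℚ) + 1) ≠ 0 := by positivity
  push_cast
  rw [div_eq_div_iff (by positivity) (by positivity)]
  linear_combination (10 * (2 * (n : ℚ) + 1)) * h

/-- the final statement from the parts -/
theorem final (hP : TaskP) (hm : ∀ n : ℕ, 2 ≤ n → 4 * SS n = n * cb n * X n ∧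
    ((∀ j : ℕ, 2 * n + 1 ≠ 5 ^ j) → 40 * (2 * (n : ℤ) + 1) ∣ X n) ∧
    (∀ j : ℕ, 2 * n + 1 = 5 ^ j → 8 * (2 * (n : ℤ) + 1) ∣ X n ∧ ¬ 5 * (2 * (n : ℤ) + 1) ∣ X n)) (n : ℕ) (hn : 1 < n) :
    ((¬ ∃ m : ℕ, 1 ≤ m ∧ 2 * n + 1 = 5 ^ m) → ∃ z : ℤ, 0 < z ∧ (-1) ^ (n - 1) * a n = z) ∧
    ((∃ m : ℕ, 1 ≤ m ∧ 2 * n + 1 = 5 ^ m) → ∃ z : ℤ, 5 * a n = z ∧ ¬ (5 : ℤ) ∣ z) := by
  obtain ⟨h4, h1, h2⟩ := hm n hn
  have ha := a_eq n (by omega) h4
  have n3 : (2 * (n : ℚ) + 1) ≠ 0 := by positivity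
  constructor
  · intro hne
    have hne' : ∀ j : ℕ, 2 * n + 1 ≠ 5 ^ j := by
      intro j hj
      apply hne
      refine ⟨j, ?_, hj⟩
      rcases Nat.eq_zero_or_pos j with h0 | h0
      · subst h0; simp at hj; omega
      · exact h0
    obtain ⟨y, hy⟩ := h1 hne'
    have hay : a n = y := by
      rw [ha, hy]
      push_cast
      field_simp
    have hpos := hP (n - 1)
    have e : n - 1 + 1 = n := by omega
    rw [e] at hpos
    have hX : 0 < (-1) ^ (n - 1) * X n := by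
      by_contra hc
      push Not at hc
      have hcb := cb_pos n
      have hnn : (0 : ℤ) < n := by exact_mod_cast (by omega : 0 < n)
      have : 4 * ((-1) ^ (n - 1) * SS n) = (n * cb n) * ((-1) ^ (n - 1) * X n) := by
        linear_combination ((-1) ^ (n - 1)) * h4
      have h6 : (n * cb n) * ((-1) ^ (n - 1) * X n) ≤ 0 := mul_nonpos_of_nonneg_of_nonpos (by positivity) hc
      unfold SS at this
      omega
    refine ⟨(-1) ^ (n - 1) * y, ?_, ?_⟩
    · rw [hy] at hX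
      by_contra hc
      push Not at hc
      have h7 : (-1) ^ (n - 1) * (40 * (2 * (n : ℤ) + 1) * y) = (40 * (2 * (n : ℤ) + 1)) * ((-1) ^ (n - 1) * y) := by ring
      rw [h7] at hX
      have h8 : (40 * (2 * (n : ℤ) + 1)) * ((-1) ^ (n - 1) * y) ≤ 0 :=
        mul_nonpos_of_nonneg_of_nonpos (by positivity) hc
      omega
    · rw [hay]
      push_cast
      ring
  · rintro ⟨m, hm1, hm⟩
    obtain ⟨⟨y, hy⟩, h3⟩ := h2 m hm
    refine ⟨y, ?_, ?_⟩
    · rw [ha, hy]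
      push_cast
      field_simp
      try ring
    · rintro ⟨x, hx⟩
      apply h3
      refine ⟨8 * x, ?_⟩
      rw [hy, hx]
      ring

end Pool.Agent.Q33.R154
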