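import Pool.Agent.Q33.R154.Stmts

set_option autoImplicit false

namespace Pool.Agent.Q33.R154

open Finset Pool.Agent.Q33.Fam

/-- the sum of the problem -/
abbrev SS (n : ℕ) : ℤ := S 154 15 (-32768) w6 n

lemma four_S (hLA : TaskLA) (hLB : TaskLB) (hWZ : TaskWZ) (hG : TaskG) (n : ℕ) :
    4 * SS n = n * cb n * X n := by
  obtain ⟨g0, g1⟩ := hG hLA hLB
  have h := tele1 (-32768) 154 15 w6 ft gt (by
    intro k M
    have := hWZ.1 k M
    push_cast
    exact this) (by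
    intro k
    have := hWZ.2 k
    push_cast
    exact this) g0 n
  have h2 : ∑ k ∈ range n, gt k (n - 1 - k) = -8192 * ((n : ℚ) * ((cb n : ℤ) : ℚ) * ((X n : ℤ) : ℚ)) := by
    unfold X
    push_cast
    rw [mul_sum, mul_sum]
    apply sum_congr rfl
    intro k hk
    rw [mem_range] at hk
    rw [g1]
    have e : k + (n - 1 - k) + 1 = n := by omega
    have e2 : (k : ℚ) + ((n - 1 - k : ℕ) : ℚ) + 1 = n := by exact_mod_cast e
    rw [e, e2]
    ring
  rw [h2] at h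
  have h3 : ((4 * SS n : ℤ) : ℚ) = ((n * cb n * X n : ℤ) : ℚ) := by
    push_cast
    push_cast at h
    unfold SS
    linarith
  exact_mod_cast h3

lemma rec_X (h4 : ∀ n : ℕ, 4 * SS n = n * cb n * X n) (n : ℕ) :
    2 * (2 * (n : ℤ) + 1) * X (n + 1) = -32768 * n * X n + 4 * (154 * n + 15) * u6 n := by
  have h1 := h4 n
  have h2 := h4 (n + 1)
  unfold SS at h1 h2
  rw [S_succ] at h2
  have h3 := cb_succ n
  have hc : cb n ≠ 0 := (cb_pos n).ne'
  apply mul_left_cancel₀ hc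
  unfold w6 at h1 h2
  push_cast at h2
  linear_combination (-(X (n + 1))) * h3 - h2 + (-32768) * h1

lemma u6_ne (n : ℕ) : u6 n ≠ 0 := by
  unfold u6
  have h1 : 0 < (6 * n).choose (3 * n) := Nat.choose_pos (by omega)
  have h2 : 0 < (3 * n).choose n := Nat.choose_pos (by omega)
  positivity

/-- the 5-part: `5 (2n+1)` divides `u6 n` if `2n+1` is not a power of 5 -/
lemma five_mul_dvd (hV : TaskV) (hF : TaskF) (n : ℕ) (hn : 1 ≤ n) (h : ∀ j : ℕ, 2 * n + 1 ≠ 5 ^ j) :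
    5 * (2 * n + 1) ∣ u6 n := by
  have hv := hV n hn h
  have hd : 2 * n + 1 ∣ u6 n := dvd_trans (Dvd.intro_left 4 rfl) (hF n hn)
  haveI : Fact (Nat.Prime 5) := ⟨by norm_num⟩
  obtain ⟨j, t, ht, he⟩ := Nat.exists_eq_pow_mul_and_not_dvd (n := 2 * n + 1) (by omega) 5 (by norm_num)
  have hj : padicValNat 5 (2 * n + 1) = j := by
    rw [he, padicValNat.mul (by positivity) (by rintro rfl; simp at ht), padicValNat.prime_pow,
      padicValNat.eq_zero_of_not_dvd ht]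
    rfl
  rw [hj] at hv
  have h5 : 5 ^ (j + 1) ∣ u6 n := dvd_trans (pow_dvd_pow 5 hv) pow_padicValNat_dvd
  have ht2 : t ∣ u6 n := dvd_trans (Dvd.intro_left _ he.symm) hd
  have hcop : Nat.Coprime (5 ^ (j + 1)) t := by
    apply Nat.Coprime.pow_left
    exact (Nat.Prime.coprime_iff_not_dvd (by norm_num)).mpr ht
  have := hcop.mul_dvd_of_dvd_of_dvd h5 ht2
  have e : 5 * (2 * n + 1) = 5 ^ (j + 1) * t := by
    conv_lhs => rw [he]
    ring
  rw [e]
  exact this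

lemma five_X (hV : TaskV) (hF : TaskF) (hX : ∀ N : ℕ, ((X (5 * N + 3) : ℤ) : ZMod 5) = ((X (N + 1) : ℤ) : ZMod 5))
    (h4 : ∀ n : ℕ, 4 * SS n = n * cb n * X n) : ∀ n : ℕ, 1 ≤ n → (5 : ℤ) ∣ X n := by
  intro n
  induction n using Nat.strong_induction_on with
  | _ n ih =>
    intro hn
    obtain ⟨k, rfl⟩ : ∃ k, n = k + 1 := ⟨n - 1, by omega⟩
    rcases Nat.eq_zero_or_pos k with hk | hk
    · subst hk
      have h := rec_X h4 0
      have hu : u6 0 = 1 := by simp [u6]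
      rw [hu] at h
      norm_num at h
      refine ⟨6, ?_⟩
      norm_num
      linarith
    · by_cases hk2 : k % 5 = 2
      · obtain ⟨N, hN⟩ : ∃ N, k = 5 * N + 2 := ⟨k / 5, by omega⟩
        have h1 := ih (N + 1) (by omega) (by omega)
        have h2 := hX N
        have h3 : ((X (N + 1) : ℤ) : ZMod 5) = 0 := (ZMod.intCast_zmod_eq_zero_iff_dvd _ 5).mpr (by exact_mod_cast h1)
        rw [h3] at h2
        have e : k + 1 = 5 * N + 3 := by omega
        rw [e]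
        exact_mod_cast (ZMod.intCast_zmod_eq_zero_iff_dvd _ 5).mp h2
      · have h1 := ih k (by omega) (by omega)
        have hne : ∀ j : ℕ, 2 * k + 1 ≠ 5 ^ j := by
          intro j hj
          rcases Nat.eq_zero_or_pos j with h0 | h0
          · subst h0
            omega
          · have : 5 ∣ 5 ^ j := dvd_pow_self 5 (by omega)
            rw [← hj] at this
            omega
        have h2 : 5 ∣ u6 k := dvd_trans (Dvd.intro _ rfl) (five_mul_dvd hV hF k hk hne)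
        have h3 := rec_X h4 k
        obtain ⟨x, hx⟩ := h1
        obtain ⟨y, hy⟩ := h2
        have h5 : (5 : ℤ) ∣ (2 * (2 * (k : ℤ) + 1)) * X (k + 1) := by
          refine ⟨-32768 * k * x + 4 * (154 * k + 15) * y, ?_⟩
          rw [h3, hx, hy]
          push_cast
          ring
        rcases (Int.Prime.dvd_mul' (by norm_num : Nat.Prime 5) (by exact_mod_cast h5)) with h6 | h6
        · exfalso
          have h6' : (5 : ℤ) ∣ 2 * (2 * (k : ℤ) + 1) := by exact_mod_cast h6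
          omega
        · exact_mod_cast h6

/-- `2n+1` and a factor `c` of `X (n+1)`: the divisor `c (2n+1)` of `X n` -/
lemma odd_dvd (h4 : ∀ n : ℕ, 4 * SS n = n * cb n * X n) (n : ℕ) (hd : 2 * n + 1 ∣ u6 n) :
    (2 * (n : ℤ) + 1) ∣ X n := by
  have h := rec_X h4 n
  obtain ⟨t, ht⟩ := hd
  have h1 : (2 * (n : ℤ) + 1) ∣ (32768 * n) * X n := by
    refine ⟨4 * (154 * n + 15) * t - 2 * X (n + 1), ?_⟩
    rw [ht] at h
    push_cast at h
    linear_combination h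
  have hc : IsCoprime (2 * (n : ℤ) + 1) (32768 * n) := by
    have c1 : IsCoprime (2 * (n : ℤ) + 1) (2 ^ 15) := by
      apply IsCoprime.pow_right
      exact ⟨1, -n, by ring⟩
    have c2 : IsCoprime (2 * (n : ℤ) + 1) (n : ℤ) := ⟨1, -2, by ring⟩
    have c3 := c1.mul_right c2
    norm_num at c3
    exact c3
  exact hc.dvd_of_dvd_mul_left h1

lemma five_odd_dvd (hV : TaskV) (hF : TaskF) (h5 : ∀ n : ℕ, 1 ≤ n → (5 : ℤ) ∣ X n)
    (h4 : ∀ n : ℕ, 4 * SS n = n * cb n * X n) (n : ℕ) (hn : 1 ≤ n)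
    (hne : ∀ j : ℕ, 2 * n + 1 ≠ 5 ^ j) : 5 * (2 * (n : ℤ) + 1) ∣ X n := by
  have hd : 2 * n + 1 ∣ u6 n := dvd_trans (Dvd.intro_left 4 rfl) (hF n hn)
  have h1 := odd_dvd h4 n hd
  by_cases hn5 : (5 : ℤ) ∣ (n : ℤ)
  · have hc : IsCoprime (5 : ℤ) (2 * (n : ℤ) + 1) := by
      obtain ⟨m, hm⟩ := hn5
      exact ⟨-(2 * m), 1, by rw [hm]; ring⟩
    exact hc.mul_dvd (h5 n hn) h1
  · have h := rec_X h4 n
    obtain ⟨t, ht⟩ := five_mul_dvd hV hF n hn hne
    obtain ⟨x, hx⟩ := h5 (n + 1) (by omega)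
    have h2 : 5 * (2 * (n : ℤ) + 1) ∣ (32768 * n) * X n := by
      refine ⟨4 * (154 * n + 15) * t - 2 * x, ?_⟩
      rw [ht, hx] at h
      push_cast at h
      linear_combination h
    have hc : IsCoprime (5 * (2 * (n : ℤ) + 1)) (32768 * n) := by
      have c1 : IsCoprime (2 * (n : ℤ) + 1) (2 ^ 15) := by
        apply IsCoprime.pow_right
        exact ⟨1, -n, by ring⟩
      have c2 : IsCoprime (2 * (n : ℤ) + 1) (n : ℤ) := ⟨1, -2, by ring⟩
      have c3 := c1.mul_right c2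
      norm_num at c3
      have p5 : Prime (5 : ℤ) := by norm_num
      have c4 : IsCoprime (5 : ℤ) (2 ^ 15) := by norm_num
      have c5 : IsCoprime (5 : ℤ) (n : ℤ) := (Prime.coprime_iff_not_dvd p5).mpr hn5
      have c6 := c4.mul_right c5
      norm_num at c6
      exact c6.mul_left c3
    exact hc.dvd_of_dvd_mul_left h2

lemma eight_dvd (hF : TaskF) (h4 : ∀ n : ℕ, 4 * SS n = n * cb n * X n) (n : ℕ) (hn : 2 ≤ n) :
    (8 : ℤ) ∣ X n := by
  obtain ⟨k, rfl⟩ : ∃ k, n = k + 1 := ⟨n - 1, by omega⟩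
  have h := rec_X h4 k
  obtain ⟨t, ht⟩ : 4 ∣ u6 k := dvd_trans (Dvd.intro _ rfl) (hF k (by omega))
  have h1 : (8 : ℤ) ∣ (2 * (k : ℤ) + 1) * X (k + 1) := by
    refine ⟨-2048 * k * X k + (154 * k + 15) * t, ?_⟩
    rw [ht] at h
    push_cast at h
    linarith
  have hc : IsCoprime (8 : ℤ) (2 * (k : ℤ) + 1) := by
    have c1 : IsCoprime ((2 : ℤ) ^ 3) (2 * (k : ℤ) + 1) := by
      apply IsCoprime.pow_left
      exact ⟨-k, 1, by ring⟩
    norm_num at c1
    exact c1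
  exact hc.dvd_of_dvd_mul_left h1

/-- the exceptional case -/
lemma exact_five (hVp : TaskVp) (h5 : ∀ n : ℕ, 1 ≤ n → (5 : ℤ) ∣ X n)
    (h4 : ∀ n : ℕ, 4 * SS n = n * cb n * X n) (n j : ℕ) (hn : 1 ≤ n) (hj : 2 * n + 1 = 5 ^ j) :
    ¬ (5 ^ (j + 1) : ℤ) ∣ X n := by
  intro hd
  have hj1 : 1 ≤ j := by
    rcases Nat.eq_zero_or_pos j with h0 | h0
    · subst h0; simp at hj; omega
    · exact h0
  have h := rec_X h4 n
  obtain ⟨x, hx⟩ := h5 (n + 1) (by omega)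
  obtain ⟨y, hy⟩ := hd
  have hj' : (2 * (n : ℤ) + 1) = 5 ^ j := by exact_mod_cast hj
  have h1 : (5 ^ (j + 1) : ℤ) ∣ (4 * (154 * n + 15)) * (u6 n : ℤ) := by
    refine ⟨2 * x + 32768 * n * y, ?_⟩
    rw [hx, hy, hj'] at h
    rw [pow_succ] at h ⊢
    linear_combination -h
  have hc : IsCoprime ((5 : ℤ) ^ (j + 1)) (4 * (154 * n + 15)) := by
    apply IsCoprime.pow_left
    have p5 : Prime (5 : ℤ) := by norm_num
    apply (Prime.coprime_iff_not_dvd p5).mpr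
    intro hh
    obtain ⟨i, rfl⟩ : ∃ i, j = i + 1 := ⟨j - 1, by omega⟩
    rw [pow_succ] at hj
    omega
  have h2 : (5 ^ (j + 1) : ℤ) ∣ (u6 n : ℤ) := hc.dvd_of_dvd_mul_left h1
  have h3 : 5 ^ (j + 1) ∣ u6 n := by exact_mod_cast h2
  haveI : Fact (Nat.Prime 5) := ⟨by norm_num⟩
  have h6 := (padicValNat_dvd_iff_le (u6_ne n)).mp h3
  rw [hVp n j hj] at h6
  omega

/-- the whole divisibility statement -/
theorem main (hLA : TaskLA) (hLB : TaskLB) (hWZ : TaskWZ) (hG : TaskG) (hV : TaskV) (hVp : TaskVp) (hF : TaskF)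
    (hX : ∀ N : ℕ, ((X (5 * N + 3) : ℤ) : ZMod 5) = ((X (N + 1) : ℤ) : ZMod 5)) (n : ℕ) (hn : 2 ≤ n) :
    4 * SS n = n * cb n * X n ∧
    ((∀ j : ℕ, 2 * n + 1 ≠ 5 ^ j) → 40 * (2 * (n : ℤ) + 1) ∣ X n) ∧
    (∀ j : ℕ, 2 * n + 1 = 5 ^ j → 8 * (2 * (n : ℤ) + 1) ∣ X n ∧ ¬ 5 * (2 * (n : ℤ) + 1) ∣ X n) := by
  have h4 := four_S hLA hLB hWZ hG
  have h5 := five_X hV hF hX h4
  have h8 := eight_dvd hF h4 n hn
  have c8 : ∀ y : ℤ, y % 2 = 1 → IsCoprime (8 : ℤ) y := by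
    intro y hy
    have c1 : IsCoprime ((2 : ℤ) ^ 3) y := by
      apply IsCoprime.pow_left
      exact ⟨-(y / 2), 1, by omega⟩
    norm_num at c1
    exact c1
  refine ⟨h4 n, ?_, ?_⟩
  · intro hne
    have h1 := five_odd_dvd hV hF h5 h4 n (by omega) hne
    have := (c8 (5 * (2 * (n : ℤ) + 1)) (by omega)).mul_dvd h8 h1
    have e : 40 * (2 * (n : ℤ) + 1) = 8 * (5 * (2 * (n : ℤ) + 1)) := by ring
    rw [e]
    exact this
  · intro j hj
    have hd : 2 * n + 1 ∣ u6 n := dvd_trans (Dvd.intro_left 4 rfl) (hF n (by omega))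
    refine ⟨(c8 (2 * (n : ℤ) + 1) (by omega)).mul_dvd h8 (odd_dvd h4 n hd), ?_⟩
    have := exact_five hVp h5 h4 n j (by omega) hj
    intro hh
    apply this
    have hj' : (2 * (n : ℤ) + 1) = 5 ^ j := by exact_mod_cast hj
    rw [hj'] at hh
    rw [pow_succ, mul_comm]
    exact hh

end Pool.Agent.Q33.R154
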