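import Mathlib
import Pool.Agent.Q33.Fam.Landau
import Pool.Agent.Q33.Fam.Tele
import Pool.Agent.Q33.Fam.Sign

set_option autoImplicit false

/-!
MP_1a3e71_nt (weight `154 k + 15`). Definitions and the lemmas (blueprint).
`fp l` is the product of the factorials of the list `l` (Pool/Agent/Q33/Fam/Landau.lean).
-/

namespace Pool.Agent.Q33.R154

open Finset Pool.Agent.Q33.Fam Nat

/-- `(6n)! / ((3n)! (2n)! n!)` -/
def u6 (n : ℕ) : ℕ := (6 * n).choose (3 * n) * (3 * n).choose n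

/-- the weights `(6n)! / ((3n)! n!^3)` -/
def w6 (n : ℕ) : ℤ := cb n * u6 n

/-- numerator and denominator lists of `A` and `B` -/
def nA (K M : ℕ) : List ℕ := [6 * M + 2, 4 * K + 2 * M + 1, K + M]
def dA (K M : ℕ) : List ℕ := [3 * M + 1, M, 2 * K + M, K + 2 * M + 1, 2 * K + 2 * M + 1]
def nB (K M : ℕ) : List ℕ := [6 * M, 4 * K + 2 * M + 2, K + M]
def dB (K M : ℕ) : List ℕ := [3 * M, M, 2 * K + M + 1, K + 2 * M, 2 * K + 2 * M + 1]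

/-- the factorial ratios -/
def A (K M : ℕ) : ℕ := fp (nA K M) / fp (dA K M)
def B (K M : ℕ) : ℕ := fp (nB K M) / fp (dB K M)

/-- `4 S(n) = n C(2n,n) X(n)` -/
def X (n : ℕ) : ℤ := ∑ K ∈ range n, (-512) ^ K * (16 * (B K (n - 1 - K) : ℤ) - A K (n - 1 - K))

/-- the WZ pair -/
noncomputable def ft (k M : ℕ) : ℚ := (-512) ^ k *
  (308 * ((k : ℚ) + M) ^ 2 + (184 - 352 * (k : ℚ)) * ((k : ℚ) + M) + 108 * (k : ℚ) ^ 2 - 108 * k + 15) *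
  (((6 * M).factorial : ℚ) * ((4 * k + 2 * M).factorial : ℚ)) /
  (((3 * M).factorial : ℚ) * (M.factorial : ℚ) * ((k + M).factorial : ℚ) * ((2 * k + M).factorial : ℚ) *
    ((k + 2 * M + 1).factorial : ℚ))
noncomputable def gt (k M : ℕ) : ℚ := -16384 * (-512) ^ k * (16 * (k : ℚ) + 26 * M + 15) *
  (((6 * M).factorial : ℚ) * ((4 * k + 2 * M + 2).factorial : ℚ)) /
  (((3 * M).factorial : ℚ) * (M.factorial : ℚ) * ((k + M).factorial : ℚ) * ((2 * k + M + 1).factorial : ℚ) *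
    ((k + 2 * M + 1).factorial : ℚ))

/-- The residues of the 5-free parts of the factorials (Wilson). -/
def TaskU : Prop := ∃ U : ℕ → ℕ → ℕ, ∀ q r : ℕ, r < 5 →
  (5 * q + r).factorial = 5 ^ q * q.factorial * U q r ∧
    ((U q r : ℕ) : ZMod 5) = (-1) ^ q * ((r.factorial : ℕ) : ZMod 5)

/-- `landau` of Pool/Agent/Q33/Fam/Landau.lean; copy the proof of Pool/Agent/Q33/Fam/X51B.lean
(the floor inequality holds for all `q ≥ 2`). -/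
def TaskLA : Prop := ∀ K M : ℕ, fp (dA K M) ∣ fp (nA K M)
/-- the same -/
def TaskLB : Prop := ∀ K M : ℕ, fp (dB K M) ∣ fp (nB K M)

/-- The WZ equation: copy Pool/Agent/Q33/Fam/W51.lean (`faN`, `field_simp`, `ring`). -/
def TaskWZ : Prop := (∀ k M : ℕ, gt k (M + 1) - (-32768) * gt k M =
    (-32768) * (ft k (M + 1) - ft (k + 1) M)) ∧ ∀ k : ℕ, gt k 0 = (-32768) * ft k 0

/-- `ft 0 N = (154 N + 15) w6 N` and `gt k M = -8192 (-512)^k (k+M+1) cb(k+M+1) (16 B - A)`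
(note `16 k + 26 M + 15 = 16 (k + 2 M + 1) - (6 M + 1)`). -/
def TaskG : Prop := TaskLA → TaskLB → (∀ N : ℕ, ft 0 N = (((154 : ℤ) * N + 15) * w6 N : ℤ)) ∧
  ∀ k M : ℕ, gt k M = -8192 * (-512) ^ k * ((k : ℚ) + M + 1) * ((cb (k + M + 1) : ℤ) : ℚ) *
    (16 * (B k M : ℚ) - A k M)

/-- classes modulo 5. Method: write every factorial as `5^q q! U q r`, cancel, and compute the residues
of the `U` (the signs `(-1)^(…)` multiply to one sign); `A a b * fp (dA a b) = fp (nA a b)` by TaskLA. -/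
def TaskC02 : Prop := TaskU → TaskLA → TaskLB → ∀ a b : ℕ,
  ((A (5 * a) (5 * b + 2) : ℕ) : ZMod 5) = (A a b : ℕ) ∧ ((B (5 * a) (5 * b + 2) : ℕ) : ZMod 5) = 0
/-- use `B a b * fp [3b, b, 2a+b, a+2b, 2a+2b+1] = 2 * fp [6b, 4a+2b+1, a+b]` -/
def TaskC20 : Prop := TaskU → TaskLA → TaskLB → ∀ a b : ℕ,
  ((A (5 * a + 2) (5 * b) : ℕ) : ZMod 5) = 2 * (B a b : ℕ) ∧
    ((B (5 * a + 2) (5 * b) : ℕ) : ZMod 5) = (B a b : ℕ)
/-- the same auxiliary identity: `2 * A * (units) = 5 * (6b+1) * (units) * B a b` -/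
def TaskC11 : Prop := TaskU → TaskLA → TaskLB → ∀ a b : ℕ,
  ((A (5 * a + 1) (5 * b + 1) : ℕ) : ZMod 5) = 0 ∧ ((B (5 * a + 1) (5 * b + 1) : ℕ) : ZMod 5) = 0
/-- with `n = fp [6b+4, 4a+2b+4, a+b+1]`, `d = fp [3b+2, b, 2a+b+2, a+2b+2, 2a+2b+3]`:
`A34 d U = 5 (6b+5) n U'`, `B34 d U = n U'`, `A43 d U = n U'`, `2 B43 d U = n U'`. -/
def TaskC34 : Prop := TaskU → TaskLA → TaskLB → ∀ a b : ℕ,
  ((A (5 * a + 3) (5 * b + 4) : ℕ) : ZMod 5) = 0 ∧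
  ((A (5 * a + 4) (5 * b + 3) : ℕ) : ZMod 5) = (B (5 * a + 3) (5 * b + 4) : ℕ)
def TaskC43 : Prop := TaskU → TaskLA → TaskLB → ∀ a b : ℕ,
  ((B (5 * a + 4) (5 * b + 3) : ℕ) : ZMod 5) = -(B (5 * a + 3) (5 * b + 4) : ℕ)

/-- split the sum over `K < 5N+3` by the class of `K` modulo 5: `K = 5a, 5a+1, 5a+2` with `a ≤ N`,
`K = 5a+3, 5a+4` with `a < N` (for example by `Finset.sum_range_succ` and `Finset.sum_range` of `5N`);
`(-512 : ZMod 5) = 3`, `3^(5a) = 3^a`. -/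
def TaskX : Prop := (∀ a b : ℕ,
    (((A (5 * a) (5 * b + 2) : ℕ) : ZMod 5) = (A a b : ℕ) ∧ ((B (5 * a) (5 * b + 2) : ℕ) : ZMod 5) = 0) ∧
    (((A (5 * a + 2) (5 * b) : ℕ) : ZMod 5) = 2 * (B a b : ℕ) ∧
      ((B (5 * a + 2) (5 * b) : ℕ) : ZMod 5) = (B a b : ℕ)) ∧
    (((A (5 * a + 1) (5 * b + 1) : ℕ) : ZMod 5) = 0 ∧ ((B (5 * a + 1) (5 * b + 1) : ℕ) : ZMod 5) = 0) ∧
    (((A (5 * a + 3) (5 * b + 4) : ℕ) : ZMod 5) = 0 ∧
      ((A (5 * a + 4) (5 * b + 3) : ℕ) : ZMod 5) = (B (5 * a + 3) (5 * b + 4) : ℕ)) ∧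
    ((B (5 * a + 4) (5 * b + 3) : ℕ) : ZMod 5) = -(B (5 * a + 3) (5 * b + 4) : ℕ)) →
  ∀ N : ℕ, ((X (5 * N + 3) : ℤ) : ZMod 5) = ((X (N + 1) : ℤ) : ZMod 5)

/-- `v_5(u6 n) = ∑_i φ({n/5^i})`, `φ(x) = ⌊6x⌋ - ⌊3x⌋ - ⌊2x⌋`, `φ = 0` on `[0,1/6)`, `1` on `[1/6,5/6)`, `2` after;
`5^j ∣ 2n+1` gives `1` for `i ≤ j`; the least `i` with `5^i > n` gives another one unless `2n+1 = 5^j`.
Use `fact_val`, `fp_val` of Landau.lean (`u6 n * fp [3n, 2n, n] = fp [6n]`). -/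
def TaskV : Prop := ∀ n : ℕ, 1 ≤ n → (∀ j : ℕ, 2 * n + 1 ≠ 5 ^ j) →
  padicValNat 5 (2 * n + 1) + 1 ≤ padicValNat 5 (u6 n)
/-- for `2n+1 = 5^j`: one for `i ≤ j` (there `n % 5^i = (5^i-1)/2`), zero for `i > j` -/
def TaskVp : Prop := ∀ n j : ℕ, 2 * n + 1 = 5 ^ j → padicValNat 5 (u6 n) = j

/-- `u6 n = C(6n,2n) C(4n,n)`, `C(4n,n) = 4 C(4n-1,n-1)`, and `2n+1 ∣ C(3n,n)` (`choose3_dvd`) -/
def TaskF : Prop := ∀ n : ℕ, 1 ≤ n → 4 * (2 * n + 1) ∣ u6 n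

/-- positivity: `sign_alt` of Pool/Agent/Q33/Fam/Sign.lean (needs `w6 (k+1) ≤ 1728 w6 k`, `w6 k > 0`) -/
def TaskP : Prop := ∀ n : ℕ, 0 < (-1) ^ n * S 154 15 (-32768) w6 (n + 1)

end Pool.Agent.Q33.R154
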