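import Pool.Agent.Q33.R154.Stmts

set_option autoImplicit false

namespace Pool.Agent.Q33.R154

open Finset Pool.Agent.Q33.Fam Nat

theorem taskC02 : TaskC02 := by
  rintro ⟨U, hU⟩ hLA hLB a b
  have key : ∀ q r, r < 5 → (5 * q + r).factorial = 5 ^ q * q.factorial * U q r :=
    fun q r h => (hU q r h).1
  have u0 : ∀ q, ((U q 0 : ℕ) : ZMod 5) = (-1) ^ q * 1 := fun q => by
    rw [(hU q 0 (by norm_num)).2]; norm_num [Nat.factorial]
  have u1 : ∀ q, ((U q 1 : ℕ) : ZMod 5) = (-1) ^ q * 1 := fun q => by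
    rw [(hU q 1 (by norm_num)).2]; norm_num [Nat.factorial]
  have u2 : ∀ q, ((U q 2 : ℕ) : ZMod 5) = (-1) ^ q * 2 := fun q => by
    rw [(hU q 2 (by norm_num)).2]; norm_num [Nat.factorial]
  have u3 : ∀ q, ((U q 3 : ℕ) : ZMod 5) = (-1) ^ q * 6 := fun q => by
    rw [(hU q 3 (by norm_num)).2]; norm_num [Nat.factorial]
  have u4 : ∀ q, ((U q 4 : ℕ) : ZMod 5) = (-1) ^ q * 24 := fun q => by
    rw [(hU q 4 (by norm_num)).2]; norm_num [Nat.factorial]
  have h5 : (5 : ZMod 5) = 0 := by decide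
  have hA : A a b * fp (dA a b) = fp (nA a b) := Nat.div_mul_cancel (hLA a b)
  have hdpos : 0 < fp (dA a b) := Nat.pos_of_ne_zero (fp_ne_zero _)
  -- the sign
  obtain ⟨s, hsdef⟩ : ∃ s : ZMod 5, s = (-1) ^ (5 * a + 9 * b + 3) := ⟨_, rfl⟩
  have hs : s * s = 1 := by
    rw [hsdef, ← mul_pow]; norm_num
  constructor
  · have hA' : A (5 * a) (5 * b + 2) * fp (dA (5 * a) (5 * b + 2)) =
        fp (nA (5 * a) (5 * b + 2)) := Nat.div_mul_cancel (hLA _ _)
    have en : fp (nA (5 * a) (5 * b + 2)) = 5 ^ (5 * a + 9 * b + 3) * fp (nA a b) *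
        (U (6 * b + 2) 4 * U (4 * a + 2 * b + 1) 0 * U (a + b) 2) := by
      have f1 : 6 * (5 * b + 2) + 2 = 5 * (6 * b + 2) + 4 := by ring
      have f2 : 4 * (5 * a) + 2 * (5 * b + 2) + 1 = 5 * (4 * a + 2 * b + 1) + 0 := by ring
      have f3 : 5 * a + (5 * b + 2) = 5 * (a + b) + 2 := by ring
      have fe : 5 ^ (5 * a + 9 * b + 3) = 5 ^ (6 * b + 2) * 5 ^ (4 * a + 2 * b + 1) * 5 ^ (a + b) := by
        rw [← pow_add, ← pow_add]; congr 1; ring
      simp only [nA, fp_cons, fp_nil]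
      rw [f1, f2, f3, key (6 * b + 2) 4 (by norm_num), key (4 * a + 2 * b + 1) 0 (by norm_num),
        key (a + b) 2 (by norm_num), fe]
      ring
    have ed : fp (dA (5 * a) (5 * b + 2)) = 5 ^ (5 * a + 9 * b + 3) * fp (dA a b) *
        (U (3 * b + 1) 2 * U b 2 * U (2 * a + b) 2 * U (a + 2 * b + 1) 0 *
          U (2 * a + 2 * b + 1) 0) := by
      have f1 : 3 * (5 * b + 2) + 1 = 5 * (3 * b + 1) + 2 := by ring
      have f3 : 2 * (5 * a) + (5 * b + 2) = 5 * (2 * a + b) + 2 := by ring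
      have f4 : 5 * a + 2 * (5 * b + 2) + 1 = 5 * (a + 2 * b + 1) + 0 := by ring
      have f5 : 2 * (5 * a) + 2 * (5 * b + 2) + 1 = 5 * (2 * a + 2 * b + 1) + 0 := by ring
      have fe : 5 ^ (5 * a + 9 * b + 3) = 5 ^ (3 * b + 1) * 5 ^ b * 5 ^ (2 * a + b) *
          5 ^ (a + 2 * b + 1) * 5 ^ (2 * a + 2 * b + 1) := by
        rw [← pow_add, ← pow_add, ← pow_add, ← pow_add]; congr 1; ring
      simp only [dA, fp_cons, fp_nil]
      rw [f1, f3, f4, f5, key (3 * b + 1) 2 (by norm_num), key b 2 (by norm_num),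
        key (2 * a + b) 2 (by norm_num), key (a + 2 * b + 1) 0 (by norm_num),
        key (2 * a + 2 * b + 1) 0 (by norm_num), fe]
      ring
    rw [en, ed] at hA'
    have hc : A (5 * a) (5 * b + 2) * (U (3 * b + 1) 2 * U b 2 * U (2 * a + b) 2 *
        U (a + 2 * b + 1) 0 * U (2 * a + 2 * b + 1) 0) =
        A a b * (U (6 * b + 2) 4 * U (4 * a + 2 * b + 1) 0 * U (a + b) 2) := by
      have hpos : 0 < 5 ^ (5 * a + 9 * b + 3) * fp (dA a b) := Nat.mul_pos (by positivity) hdpos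
      apply Nat.eq_of_mul_eq_mul_left hpos
      rw [← hA] at hA'
      linear_combination hA'
    have hz := congrArg (Nat.cast : ℕ → ZMod 5) hc
    push_cast at hz
    rw [u2, u2, u2, u0, u0, u4, u0, u2] at hz
    have L : (-1 : ZMod 5) ^ (3 * b + 1) * (-1) ^ b * (-1) ^ (2 * a + b) *
        (-1) ^ (a + 2 * b + 1) * (-1) ^ (2 * a + 2 * b + 1) = s := by
      rw [hsdef, ← pow_add, ← pow_add, ← pow_add, ← pow_add]; congr 1; ring
    have R : (-1 : ZMod 5) ^ (6 * b + 2) * (-1) ^ (4 * a + 2 * b + 1) * (-1) ^ (a + b) = s := by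
      rw [hsdef, ← pow_add, ← pow_add]; congr 1; ring
    have h1 : ((A (5 * a) (5 * b + 2) : ℕ) : ZMod 5) * (8 * s) = (A a b : ℕ) * (48 * s) := by
      rw [← L]
      nth_rewrite 2 [L]
      rw [← R]
      linear_combination hz
    have h2 : ((A (5 * a) (5 * b + 2) : ℕ) : ZMod 5) * 8 = (A a b : ℕ) * 48 := by
      linear_combination s * h1 +
        (-8 * ((A (5 * a) (5 * b + 2) : ℕ) : ZMod 5) + 48 * ((A a b : ℕ) : ZMod 5)) * hs
    linear_combination 2 * h2 -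
      (3 * ((A (5 * a) (5 * b + 2) : ℕ) : ZMod 5) - 19 * ((A a b : ℕ) : ZMod 5)) * h5
  · have hB' : B (5 * a) (5 * b + 2) * fp (dB (5 * a) (5 * b + 2)) =
        fp (nB (5 * a) (5 * b + 2)) := Nat.div_mul_cancel (hLB _ _)
    have en : fp (nB (5 * a) (5 * b + 2)) = 5 ^ (5 * a + 9 * b + 3) * fp (nA a b) *
        (U (6 * b + 2) 2 * U (4 * a + 2 * b + 1) 1 * U (a + b) 2) := by
      have f1 : 6 * (5 * b + 2) = 5 * (6 * b + 2) + 2 := by ring
      have f2 : 4 * (5 * a) + 2 * (5 * b + 2) + 2 = 5 * (4 * a + 2 * b + 1) + 1 := by ring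
      have f3 : 5 * a + (5 * b + 2) = 5 * (a + b) + 2 := by ring
      have fe : 5 ^ (5 * a + 9 * b + 3) = 5 ^ (6 * b + 2) * 5 ^ (4 * a + 2 * b + 1) * 5 ^ (a + b) := by
        rw [← pow_add, ← pow_add]; congr 1; ring
      simp only [nA, nB, fp_cons, fp_nil]
      rw [f1, f2, f3, key (6 * b + 2) 2 (by norm_num), key (4 * a + 2 * b + 1) 1 (by norm_num),
        key (a + b) 2 (by norm_num), fe]
      ring
    have ed : (a + 2 * b + 1) * fp (dB (5 * a) (5 * b + 2)) =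
        5 ^ (5 * a + 9 * b + 2) * fp (dA a b) *
        (U (3 * b + 1) 1 * U b 2 * U (2 * a + b) 3 * U (a + 2 * b) 4 *
          U (2 * a + 2 * b + 1) 0) := by
      have f1 : 3 * (5 * b + 2) = 5 * (3 * b + 1) + 1 := by ring
      have f3 : 2 * (5 * a) + (5 * b + 2) + 1 = 5 * (2 * a + b) + 3 := by ring
      have f4 : 5 * a + 2 * (5 * b + 2) = 5 * (a + 2 * b) + 4 := by ring
      have f5 : 2 * (5 * a) + 2 * (5 * b + 2) + 1 = 5 * (2 * a + 2 * b + 1) + 0 := by ring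
      have fe : 5 ^ (5 * a + 9 * b + 2) = 5 ^ (3 * b + 1) * 5 ^ b * 5 ^ (2 * a + b) *
          5 ^ (a + 2 * b) * 5 ^ (2 * a + 2 * b + 1) := by
        rw [← pow_add, ← pow_add, ← pow_add, ← pow_add]; congr 1; ring
      simp only [dA, dB, fp_cons, fp_nil]
      rw [f1, f3, f4, f5, key (3 * b + 1) 1 (by norm_num), key b 2 (by norm_num),
        key (2 * a + b) 3 (by norm_num), key (a + 2 * b) 4 (by norm_num),
        key (2 * a + 2 * b + 1) 0 (by norm_num), fe, Nat.factorial_succ (a + 2 * b)]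
      ring
    have hc : B (5 * a) (5 * b + 2) * (U (3 * b + 1) 1 * U b 2 * U (2 * a + b) 3 *
        U (a + 2 * b) 4 * U (2 * a + 2 * b + 1) 0) =
        5 * ((a + 2 * b + 1) * A a b *
          (U (6 * b + 2) 2 * U (4 * a + 2 * b + 1) 1 * U (a + b) 2)) := by
      have hpos : 0 < 5 ^ (5 * a + 9 * b + 2) * fp (dA a b) := Nat.mul_pos (by positivity) hdpos
      apply Nat.eq_of_mul_eq_mul_left hpos
      have fe : 5 ^ (5 * a + 9 * b + 3) = 5 * 5 ^ (5 * a + 9 * b + 2) := by ring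
      rw [en, ← hA, fe] at hB'
      linear_combination (a + 2 * b + 1) * hB' - B (5 * a) (5 * b + 2) * ed
    have hz := congrArg (Nat.cast : ℕ → ZMod 5) hc
    push_cast at hz
    rw [h5, zero_mul, u1, u2, u3, u4, u0] at hz
    have L : (-1 : ZMod 5) ^ (3 * b + 1) * (-1) ^ b * (-1) ^ (2 * a + b) *
        (-1) ^ (a + 2 * b) * (-1) ^ (2 * a + 2 * b + 1) = -s := by
      have : (-s : ZMod 5) = (-1) ^ (5 * a + 9 * b + 2) := by
        rw [hsdef, pow_succ (-1 : ZMod 5) (5 * a + 9 * b + 2)]; ring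
      rw [this, ← pow_add, ← pow_add, ← pow_add, ← pow_add]; congr 1; ring
    have h1 : ((B (5 * a) (5 * b + 2) : ℕ) : ZMod 5) * (288 * -s) = 0 := by
      rw [← L]
      linear_combination hz
    have h2 : ((B (5 * a) (5 * b + 2) : ℕ) : ZMod 5) * 288 = 0 := by
      linear_combination -s * h1 - 288 * ((B (5 * a) (5 * b + 2) : ℕ) : ZMod 5) * hs
    linear_combination 2 * h2 - 115 * ((B (5 * a) (5 * b + 2) : ℕ) : ZMod 5) * h5

end Pool.Agent.Q33.R154
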