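import Pool.Agent.Q33.R154.Stmts

set_option autoImplicit false

/-! Blueprint for MP_1a3e71_nt: the class (1, 1) modulo 5. -/

namespace Pool.Agent.Q33.R154

open Finset Pool.Agent.Q33.Fam Nat

private lemma c11_aux (hB : TaskLB) (a b : ℕ) :
    B a b * ((3 * b).factorial * b.factorial * (2 * a + b).factorial * (a + 2 * b).factorial *
      (2 * a + 2 * b + 1).factorial) =
    2 * ((6 * b).factorial * (4 * a + 2 * b + 1).factorial * (a + b).factorial) := by
  have h := Nat.div_mul_cancel (hB a b)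
  have h' : B a b * fp (dB a b) = fp (nB a b) := h
  simp only [dB, nB, fp_cons, fp_nil] at h'
  rw [show 2 * a + b + 1 = (2 * a + b) + 1 from rfl, Nat.factorial_succ (2 * a + b),
    show 4 * a + 2 * b + 2 = (4 * a + 2 * b + 1) + 1 from rfl,
    Nat.factorial_succ (4 * a + 2 * b + 1)] at h'
  refine Nat.eq_of_mul_eq_mul_left (n := 2 * a + b + 1) (by omega) ?_
  calc (2 * a + b + 1) * (B a b * ((3 * b).factorial * b.factorial * (2 * a + b).factorial *
      (a + 2 * b).factorial * (2 * a + 2 * b + 1).factorial))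
      = B a b * ((3 * b).factorial * (b.factorial * ((2 * a + b + 1) * (2 * a + b).factorial *
        ((a + 2 * b).factorial * ((2 * a + 2 * b + 1).factorial * 1))))) := by ring
    _ = _ := h'
    _ = _ := by ring

private lemma c11_two : (2 : ZMod 5) ≠ 0 := by decide
private lemma c11_neg : (-1 : ZMod 5) ≠ 0 := by decide
private lemma c11_fac (r : ℕ) (hr : r < 5) : ((r.factorial : ℕ) : ZMod 5) ≠ 0 := by
  have h : ∀ r : Fin 5, (((r : ℕ).factorial : ℕ) : ZMod 5) ≠ 0 := by decide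
  exact h ⟨r, hr⟩

private lemma c11_zero (x p q r : ℕ) (h : 2 * x * p = 5 * q * r)
    (hp : ((p : ℕ) : ZMod 5) ≠ 0) : ((x : ℕ) : ZMod 5) = 0 := by
  have h2 : ((2 * x * p : ℕ) : ZMod 5) = ((5 * q * r : ℕ) : ZMod 5) := by rw [h]
  push_cast at h2
  have h5 : (5 : ZMod 5) = 0 := by decide
  rw [h5, zero_mul, zero_mul] at h2
  haveI : Fact (Nat.Prime 5) := ⟨by norm_num⟩
  rcases mul_eq_zero.1 h2 with h3 | h3
  · rcases mul_eq_zero.1 h3 with h4 | h4
    · exact absurd h4 c11_two
    · exact h4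
  · exact absurd h3 hp

theorem taskC11 : TaskC11 := by
  intro hTU hLA hLB a b
  obtain ⟨U, hU⟩ := hTU
  haveI : Fact (Nat.Prime 5) := ⟨by norm_num⟩
  have hu : ∀ q r : ℕ, r < 5 → ((U q r : ℕ) : ZMod 5) ≠ 0 := by
    intro q r hr
    rw [(hU q r hr).2]
    exact mul_ne_zero (pow_ne_zero _ c11_neg) (c11_fac r hr)
  have haux := c11_aux hLB a b
  constructor
  · have h : A (5 * a + 1) (5 * b + 1) * fp (dA (5 * a + 1) (5 * b + 1)) =
        fp (nA (5 * a + 1) (5 * b + 1)) := Nat.div_mul_cancel (hLA _ _)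
    simp only [dA, nA, fp_cons, fp_nil] at h
    rw [show 3 * (5 * b + 1) + 1 = 5 * (3 * b) + 4 by ring,
      show 2 * (5 * a + 1) + (5 * b + 1) = 5 * (2 * a + b) + 3 by ring,
      show 5 * a + 1 + 2 * (5 * b + 1) + 1 = 5 * (a + 2 * b) + 4 by ring,
      show 2 * (5 * a + 1) + 2 * (5 * b + 1) + 1 = 5 * (2 * a + 2 * b + 1) + 0 by ring,
      show 6 * (5 * b + 1) + 2 = 5 * (6 * b + 1) + 3 by ring,
      show 4 * (5 * a + 1) + 2 * (5 * b + 1) + 1 = 5 * (4 * a + 2 * b + 1) + 2 by ring,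
      show 5 * a + 1 + (5 * b + 1) = 5 * (a + b) + 2 by ring,
      (hU (3 * b) 4 (by norm_num)).1, (hU b 1 (by norm_num)).1,
      (hU (2 * a + b) 3 (by norm_num)).1, (hU (a + 2 * b) 4 (by norm_num)).1,
      (hU (2 * a + 2 * b + 1) 0 (by norm_num)).1, (hU (6 * b + 1) 3 (by norm_num)).1,
      (hU (4 * a + 2 * b + 1) 2 (by norm_num)).1, (hU (a + b) 2 (by norm_num)).1] at h
    refine c11_zero _ (U (3 * b) 4 * U b 1 * U (2 * a + b) 3 * U (a + 2 * b) 4 *
      U (2 * a + 2 * b + 1) 0) ((6 * b + 1) * B a b)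
      (U (6 * b + 1) 3 * U (4 * a + 2 * b + 1) 2 * U (a + b) 2) ?_ ?_
    · refine Nat.eq_of_mul_eq_mul_left (n := 5 ^ (5 * a + 9 * b + 1) * ((3 * b).factorial *
        b.factorial * (2 * a + b).factorial * (a + 2 * b).factorial *
          (2 * a + 2 * b + 1).factorial)) (by positivity) ?_
      calc _ = 2 * (A (5 * a + 1) (5 * b + 1) * (5 ^ (3 * b) * (3 * b).factorial * U (3 * b) 4 *
            (5 ^ b * b.factorial * U b 1 *
              (5 ^ (2 * a + b) * (2 * a + b).factorial * U (2 * a + b) 3 *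
                (5 ^ (a + 2 * b) * (a + 2 * b).factorial * U (a + 2 * b) 4 *
                  (5 ^ (2 * a + 2 * b + 1) * (2 * a + 2 * b + 1).factorial *
                    U (2 * a + 2 * b + 1) 0 * 1)))))) := by ring
        _ = _ := by rw [h]
        _ = 5 ^ (5 * a + 9 * b + 2) * (6 * b + 1) *
            (U (6 * b + 1) 3 * U (4 * a + 2 * b + 1) 2 * U (a + b) 2) *
            (2 * ((6 * b).factorial * (4 * a + 2 * b + 1).factorial * (a + b).factorial)) := by
          rw [Nat.factorial_succ (6 * b)]; ring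
        _ = _ := by rw [← haux]; ring
    · push_cast
      exact mul_ne_zero (mul_ne_zero (mul_ne_zero (mul_ne_zero (hu _ _ (by norm_num))
        (hu _ _ (by norm_num))) (hu _ _ (by norm_num))) (hu _ _ (by norm_num)))
        (hu _ _ (by norm_num))
  · have h : B (5 * a + 1) (5 * b + 1) * fp (dB (5 * a + 1) (5 * b + 1)) =
        fp (nB (5 * a + 1) (5 * b + 1)) := Nat.div_mul_cancel (hLB _ _)
    simp only [dB, nB, fp_cons, fp_nil] at h
    rw [show 3 * (5 * b + 1) = 5 * (3 * b) + 3 by ring,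
      show 2 * (5 * a + 1) + (5 * b + 1) + 1 = 5 * (2 * a + b) + 4 by ring,
      show 5 * a + 1 + 2 * (5 * b + 1) = 5 * (a + 2 * b) + 3 by ring,
      show 2 * (5 * a + 1) + 2 * (5 * b + 1) + 1 = 5 * (2 * a + 2 * b + 1) + 0 by ring,
      show 6 * (5 * b + 1) = 5 * (6 * b + 1) + 1 by ring,
      show 4 * (5 * a + 1) + 2 * (5 * b + 1) + 2 = 5 * (4 * a + 2 * b + 1) + 3 by ring,
      show 5 * a + 1 + (5 * b + 1) = 5 * (a + b) + 2 by ring,
      (hU (3 * b) 3 (by norm_num)).1, (hU b 1 (by norm_num)).1,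
      (hU (2 * a + b) 4 (by norm_num)).1, (hU (a + 2 * b) 3 (by norm_num)).1,
      (hU (2 * a + 2 * b + 1) 0 (by norm_num)).1, (hU (6 * b + 1) 1 (by norm_num)).1,
      (hU (4 * a + 2 * b + 1) 3 (by norm_num)).1, (hU (a + b) 2 (by norm_num)).1] at h
    refine c11_zero _ (U (3 * b) 3 * U b 1 * U (2 * a + b) 4 * U (a + 2 * b) 3 *
      U (2 * a + 2 * b + 1) 0) ((6 * b + 1) * B a b)
      (U (6 * b + 1) 1 * U (4 * a + 2 * b + 1) 3 * U (a + b) 2) ?_ ?_
    · refine Nat.eq_of_mul_eq_mul_left (n := 5 ^ (5 * a + 9 * b + 1) * ((3 * b).factorial *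
        b.factorial * (2 * a + b).factorial * (a + 2 * b).factorial *
          (2 * a + 2 * b + 1).factorial)) (by positivity) ?_
      calc _ = 2 * (B (5 * a + 1) (5 * b + 1) * (5 ^ (3 * b) * (3 * b).factorial * U (3 * b) 3 *
            (5 ^ b * b.factorial * U b 1 *
              (5 ^ (2 * a + b) * (2 * a + b).factorial * U (2 * a + b) 4 *
                (5 ^ (a + 2 * b) * (a + 2 * b).factorial * U (a + 2 * b) 3 *
                  (5 ^ (2 * a + 2 * b + 1) * (2 * a + 2 * b + 1).factorial *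
                    U (2 * a + 2 * b + 1) 0 * 1)))))) := by ring
        _ = _ := by rw [h]
        _ = 5 ^ (5 * a + 9 * b + 2) * (6 * b + 1) *
            (U (6 * b + 1) 1 * U (4 * a + 2 * b + 1) 3 * U (a + b) 2) *
            (2 * ((6 * b).factorial * (4 * a + 2 * b + 1).factorial * (a + b).factorial)) := by
          rw [Nat.factorial_succ (6 * b)]; ring
        _ = _ := by rw [← haux]; ring
    · push_cast
      exact mul_ne_zero (mul_ne_zero (mul_ne_zero (mul_ne_zero (hu _ _ (by norm_num))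
        (hu _ _ (by norm_num))) (hu _ _ (by norm_num))) (hu _ _ (by norm_num)))
        (hu _ _ (by norm_num))

end Pool.Agent.Q33.R154
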