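import Pool.Agent.Q33.R154.Stmts

set_option autoImplicit false

namespace Pool.Agent.Q33.R154.TaskC20

open Pool.Agent.Q33.Fam

theorem aux (hLB : TaskLB) (a b : ℕ) :
    B a b * ((3 * b).factorial * b.factorial * (2 * a + b).factorial * (a + 2 * b).factorial *
      (2 * a + 2 * b + 1).factorial) =
    2 * ((6 * b).factorial * (4 * a + 2 * b + 1).factorial * (a + b).factorial) := by
  have h : B a b * fp (dB a b) = fp (nB a b) := Nat.div_mul_cancel (hLB a b)
  simp only [dB, nB, fp_cons, fp_nil, mul_one] at h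
  rw [Nat.factorial_succ (2 * a + b), show 4 * a + 2 * b + 2 = (4 * a + 2 * b + 1) + 1 from rfl,
    Nat.factorial_succ (4 * a + 2 * b + 1)] at h
  have hpos : 0 < 2 * a + b + 1 := by omega
  apply Nat.eq_of_mul_eq_mul_left hpos
  calc _ = B a b * ((3 * b).factorial * (b.factorial * ((2 * a + b + 1) * (2 * a + b).factorial *
        ((a + 2 * b).factorial * (2 * a + 2 * b + 1).factorial)))) := by ring
    _ = _ := h
    _ = _ := by ring

theorem sgn (σ : ZMod 5) (a b : ℕ) :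
    (σ ^ (3 * b) * 1) * (σ ^ b * 1) * (σ ^ (2 * a + b) * 24) * (σ ^ (a + 2 * b) * 6) *
      (σ ^ (2 * a + 2 * b + 1) * 1) = σ ^ (5 * a + 9 * b + 1) * 144 := by ring

theorem sgn2 (σ : ZMod 5) (a b : ℕ) :
    (σ ^ (6 * b) * 2) * (σ ^ (4 * a + 2 * b + 1) * 24) * (σ ^ (a + b) * 2) =
      σ ^ (5 * a + 9 * b + 1) * 96 := by ring

theorem sgn3 (σ : ZMod 5) (a b : ℕ) :
    (σ ^ (3 * b) * 1) * (σ ^ b * 1) * (σ ^ (2 * a + b + 1) * 1) * (σ ^ (a + 2 * b) * 2) *
      (σ ^ (2 * a + 2 * b + 1) * 1) = σ ^ (5 * a + 9 * b + 2) * 2 := by ring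

theorem sgn4 (σ : ZMod 5) (a b : ℕ) :
    (σ ^ (6 * b) * 1) * (σ ^ (4 * a + 2 * b + 2) * 1) * (σ ^ (a + b) * 2) =
      σ ^ (5 * a + 9 * b + 2) * 2 := by ring

theorem main : Pool.Agent.Q33.R154.TaskC20 := by
  rintro ⟨U, hU⟩ hLA hLB a b
  have hf : ∀ q r : ℕ, r < 5 → (5 * q + r).factorial = 5 ^ q * q.factorial * U q r :=
    fun q r h => (hU q r h).1
  have hf0 : ∀ q : ℕ, (5 * q).factorial = 5 ^ q * q.factorial * U q 0 :=
    fun q => hf q 0 (by norm_num)
  have h5 : (5 : ZMod 5) = 0 := by decide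
  have hz0 : ∀ q : ℕ, ((U q 0 : ℕ) : ZMod 5) = (-1) ^ q * 1 := fun q => by
    rw [(hU q 0 (by norm_num)).2]; simp
  have hz1 : ∀ q : ℕ, ((U q 1 : ℕ) : ZMod 5) = (-1) ^ q * 1 := fun q => by
    rw [(hU q 1 (by norm_num)).2]; simp
  have hz2 : ∀ q : ℕ, ((U q 2 : ℕ) : ZMod 5) = (-1) ^ q * 2 := fun q => by
    rw [(hU q 2 (by norm_num)).2]; simp [Nat.factorial]
  have hz3 : ∀ q : ℕ, ((U q 3 : ℕ) : ZMod 5) = (-1) ^ q * 6 := fun q => by
    rw [(hU q 3 (by norm_num)).2]; simp [Nat.factorial]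
  have hz4 : ∀ q : ℕ, ((U q 4 : ℕ) : ZMod 5) = (-1) ^ q * 24 := fun q => by
    rw [(hU q 4 (by norm_num)).2]; simp [Nat.factorial]
  have hss : ∀ m : ℕ, ((-1 : ZMod 5) ^ m) * ((-1) ^ m) = 1 := fun m => by
    rw [← mul_pow]; simp
  have hpow : ∀ m : ℕ, 0 < 5 ^ m := fun m => by positivity
  constructor
  · have hA : A (5 * a + 2) (5 * b) * fp (dA (5 * a + 2) (5 * b)) = fp (nA (5 * a + 2) (5 * b)) :=
      Nat.div_mul_cancel (hLA _ _)
    generalize A (5 * a + 2) (5 * b) = A' at hA ⊢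
    simp only [dA, nA, fp_cons, fp_nil, mul_one] at hA
    rw [show 3 * (5 * b) + 1 = 5 * (3 * b) + 1 by ring,
      show 2 * (5 * a + 2) + 5 * b = 5 * (2 * a + b) + 4 by ring,
      show 5 * a + 2 + 2 * (5 * b) + 1 = 5 * (a + 2 * b) + 3 by ring,
      show 2 * (5 * a + 2) + 2 * (5 * b) + 1 = 5 * (2 * a + 2 * b + 1) by ring,
      show 6 * (5 * b) + 2 = 5 * (6 * b) + 2 by ring,
      show 4 * (5 * a + 2) + 2 * (5 * b) + 1 = 5 * (4 * a + 2 * b + 1) + 4 by ring,
      show 5 * a + 2 + 5 * b = 5 * (a + b) + 2 by ring,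
      hf (3 * b) 1 (by norm_num), hf0 b, hf (2 * a + b) 4 (by norm_num),
      hf (a + 2 * b) 3 (by norm_num), hf0 (2 * a + 2 * b + 1), hf (6 * b) 2 (by norm_num),
      hf (4 * a + 2 * b + 1) 4 (by norm_num), hf (a + b) 2 (by norm_num)] at hA
    have hx := aux hLB a b
    generalize B a b = B' at hx ⊢
    have key : 2 * A' * (U (3 * b) 1 * U b 0 * U (2 * a + b) 4 * U (a + 2 * b) 3 *
        U (2 * a + 2 * b + 1) 0) = B' * (U (6 * b) 2 * U (4 * a + 2 * b + 1) 4 * U (a + b) 2) := by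
      have hD : 0 < 5 ^ (5 * a + 9 * b + 1) * ((3 * b).factorial * b.factorial *
          (2 * a + b).factorial * (a + 2 * b).factorial * (2 * a + 2 * b + 1).factorial) := by
        positivity
      apply Nat.eq_of_mul_eq_mul_left hD
      calc _ = 2 * (A' * (5 ^ (3 * b) * (3 * b).factorial * U (3 * b) 1 *
            (5 ^ b * b.factorial * U b 0 * (5 ^ (2 * a + b) * (2 * a + b).factorial *
              U (2 * a + b) 4 * (5 ^ (a + 2 * b) * (a + 2 * b).factorial * U (a + 2 * b) 3 *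
              (5 ^ (2 * a + 2 * b + 1) * (2 * a + 2 * b + 1).factorial *
                U (2 * a + 2 * b + 1) 0)))))) := by ring
        _ = 2 * (5 ^ (6 * b) * (6 * b).factorial * U (6 * b) 2 * (5 ^ (4 * a + 2 * b + 1) *
            (4 * a + 2 * b + 1).factorial * U (4 * a + 2 * b + 1) 4 * (5 ^ (a + b) *
            (a + b).factorial * U (a + b) 2))) := by rw [hA]
        _ = 5 ^ (5 * a + 9 * b + 1) * (2 * ((6 * b).factorial * (4 * a + 2 * b + 1).factorial *
            (a + b).factorial)) * (U (6 * b) 2 * U (4 * a + 2 * b + 1) 4 * U (a + b) 2) := by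
            ring
        _ = _ := by rw [← hx]; ring
    have k2 := congrArg (Nat.cast : ℕ → ZMod 5) key
    push_cast at k2
    rw [hz1, hz0, hz4, hz3, hz0, hz2, hz4, hz2, sgn, sgn2] at k2
    have hs := hss (5 * a + 9 * b + 1)
    generalize (-1 : ZMod 5) ^ (5 * a + 9 * b + 1) = s at k2 hs
    have h : (288 : ZMod 5) * A' = 96 * B' := by
      linear_combination s * k2 - (288 * (A' : ZMod 5) - 96 * B') * hs
    linear_combination 2 * h + (-115 * (A' : ZMod 5) + 38 * B') * h5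
  · have hB : B (5 * a + 2) (5 * b) * fp (dB (5 * a + 2) (5 * b)) = fp (nB (5 * a + 2) (5 * b)) :=
      Nat.div_mul_cancel (hLB _ _)
    generalize B (5 * a + 2) (5 * b) = A' at hB ⊢
    have hx : B a b * fp (dB a b) = fp (nB a b) := Nat.div_mul_cancel (hLB a b)
    generalize B a b = B' at hx ⊢
    simp only [dB, nB, fp_cons, fp_nil, mul_one] at hB hx
    rw [show 3 * (5 * b) = 5 * (3 * b) by ring,
      show 2 * (5 * a + 2) + 5 * b + 1 = 5 * (2 * a + b + 1) by ring,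
      show 5 * a + 2 + 2 * (5 * b) = 5 * (a + 2 * b) + 2 by ring,
      show 2 * (5 * a + 2) + 2 * (5 * b) + 1 = 5 * (2 * a + 2 * b + 1) by ring,
      show 6 * (5 * b) = 5 * (6 * b) by ring,
      show 4 * (5 * a + 2) + 2 * (5 * b) + 2 = 5 * (4 * a + 2 * b + 2) by ring,
      show 5 * a + 2 + 5 * b = 5 * (a + b) + 2 by ring,
      hf0 (3 * b), hf0 b, hf0 (2 * a + b + 1),
      hf (a + 2 * b) 2 (by norm_num), hf0 (2 * a + 2 * b + 1), hf0 (6 * b),
      hf0 (4 * a + 2 * b + 2), hf (a + b) 2 (by norm_num)] at hB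
    have key : A' * (U (3 * b) 0 * U b 0 * U (2 * a + b + 1) 0 * U (a + 2 * b) 2 *
        U (2 * a + 2 * b + 1) 0) = B' * (U (6 * b) 0 * U (4 * a + 2 * b + 2) 0 * U (a + b) 2) := by
      have hD : 0 < 5 ^ (5 * a + 9 * b + 2) * ((3 * b).factorial * (b.factorial *
          ((2 * a + b + 1).factorial * ((a + 2 * b).factorial *
            (2 * a + 2 * b + 1).factorial)))) := by
        positivity
      apply Nat.eq_of_mul_eq_mul_left hD
      calc _ = (A' * (5 ^ (3 * b) * (3 * b).factorial * U (3 * b) 0 *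
            (5 ^ b * b.factorial * U b 0 * (5 ^ (2 * a + b + 1) * (2 * a + b + 1).factorial *
              U (2 * a + b + 1) 0 * (5 ^ (a + 2 * b) * (a + 2 * b).factorial * U (a + 2 * b) 2 *
              (5 ^ (2 * a + 2 * b + 1) * (2 * a + 2 * b + 1).factorial *
                U (2 * a + 2 * b + 1) 0)))))) := by ring
        _ = (5 ^ (6 * b) * (6 * b).factorial * U (6 * b) 0 * (5 ^ (4 * a + 2 * b + 2) *
            (4 * a + 2 * b + 2).factorial * U (4 * a + 2 * b + 2) 0 * (5 ^ (a + b) *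
            (a + b).factorial * U (a + b) 2))) := by rw [hB]
        _ = 5 ^ (5 * a + 9 * b + 2) * ((6 * b).factorial * ((4 * a + 2 * b + 2).factorial *
            (a + b).factorial)) * (U (6 * b) 0 * U (4 * a + 2 * b + 2) 0 * U (a + b) 2) := by
            ring
        _ = _ := by rw [← hx]; ring
    have k2 := congrArg (Nat.cast : ℕ → ZMod 5) key
    push_cast at k2
    rw [hz0, hz0, hz0, hz2, hz0, hz0, hz0, hz2, sgn3, sgn4] at k2
    have hs := hss (5 * a + 9 * b + 2)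
    generalize (-1 : ZMod 5) ^ (5 * a + 9 * b + 2) = s at k2 hs
    have h : (2 : ZMod 5) * A' = 2 * B' := by
      linear_combination s * k2 - (2 * (A' : ZMod 5) - 2 * B') * hs
    linear_combination 3 * h - ((A' : ZMod 5) - B') * h5

end Pool.Agent.Q33.R154.TaskC20
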