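import Pool.Agent.Q33.R154.Stmts

set_option autoImplicit false

namespace Pool.Agent.Q33.R154

open Finset Pool.Agent.Q33.Fam Nat

theorem taskC43 : TaskC43 := by
  rintro ⟨U, hU⟩ hLA hLB a b
  have F : ∀ q r : ℕ, r < 5 → (5 * q + r).factorial = 5 ^ q * q.factorial * U q r := fun q r h => (hU q r h).1
  have R : ∀ q r : ℕ, r < 5 → ((U q r : ℕ) : ZMod 5) = (-1) ^ q * ((r.factorial : ℕ) : ZMod 5) :=
    fun q r h => (hU q r h).2
  have hB34 : B (5 * a + 3) (5 * b + 4) * fp (dB (5 * a + 3) (5 * b + 4)) = fp (nB (5 * a + 3) (5 * b + 4)) :=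
    Nat.div_mul_cancel (hLB _ _)
  have hB43 : B (5 * a + 4) (5 * b + 3) * fp (dB (5 * a + 4) (5 * b + 3)) = fp (nB (5 * a + 4) (5 * b + 3)) :=
    Nat.div_mul_cancel (hLB _ _)
  generalize B (5 * a + 3) (5 * b + 4) = y at *
  generalize B (5 * a + 4) (5 * b + 3) = w at *
  simp only [nB, dB, fp, List.map_cons, List.map_nil, List.prod_cons, List.prod_nil, mul_one] at hB34 hB43
  rw [show 3 * (5 * b + 4) = 5 * (3 * b + 2) + 2 by ring,
    show 2 * (5 * a + 3) + (5 * b + 4) + 1 = 5 * (2 * a + b + 2) + 1 by ring,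
    show 5 * a + 3 + 2 * (5 * b + 4) = 5 * (a + 2 * b + 2) + 1 by ring,
    show 2 * (5 * a + 3) + 2 * (5 * b + 4) + 1 = 5 * (2 * a + 2 * b + 3) + 0 by ring,
    show 6 * (5 * b + 4) = 5 * (6 * b + 4) + 4 by ring,
    show 4 * (5 * a + 3) + 2 * (5 * b + 4) + 2 = 5 * (4 * a + 2 * b + 4) + 2 by ring,
    show 5 * a + 3 + (5 * b + 4) = 5 * (a + b + 1) + 2 by ring,
    F _ 2 (by norm_num), F _ 4 (by norm_num), F _ 1 (by norm_num), F _ 1 (by norm_num), F _ 0 (by norm_num),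
    F _ 4 (by norm_num), F _ 2 (by norm_num), F _ 2 (by norm_num)] at hB34
  rw [show 3 * (5 * b + 3) = 5 * (3 * b + 1) + 4 by ring,
    show 2 * (5 * a + 4) + (5 * b + 3) + 1 = 5 * (2 * a + b + 2) + 2 by ring,
    show 5 * a + 4 + 2 * (5 * b + 3) = 5 * (a + 2 * b + 2) + 0 by ring,
    show 2 * (5 * a + 4) + 2 * (5 * b + 3) + 1 = 5 * (2 * a + 2 * b + 3) + 0 by ring,
    show 6 * (5 * b + 3) = 5 * (6 * b + 3) + 3 by ring,
    show 4 * (5 * a + 4) + 2 * (5 * b + 3) + 2 = 5 * (4 * a + 2 * b + 4) + 4 by ring,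
    show 5 * a + 4 + (5 * b + 3) = 5 * (a + b + 1) + 2 by ring,
    F _ 4 (by norm_num), F _ 3 (by norm_num), F _ 2 (by norm_num), F _ 0 (by norm_num), F _ 0 (by norm_num),
    F _ 3 (by norm_num), F _ 4 (by norm_num), F _ 2 (by norm_num)] at hB43
  clear F
  have k1 : (3 * b + 2).factorial = (3 * b + 2) * (3 * b + 1).factorial := Nat.factorial_succ _
  have k2 : (6 * b + 4).factorial = (6 * b + 4) * (6 * b + 3).factorial := Nat.factorial_succ _
  have k3 : 5 ^ (3 * b + 2) = 5 * 5 ^ (3 * b + 1) := by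
    rw [show 3 * b + 2 = (3 * b + 1) + 1 by ring, pow_succ]; ring
  have k4 : 5 ^ (6 * b + 4) = 5 * 5 ^ (6 * b + 3) := by
    rw [show 6 * b + 4 = (6 * b + 3) + 1 by ring, pow_succ]; ring
  have e1 : 5 ^ (3 * b + 2) * 5 ^ b * 5 ^ (2 * a + b + 2) * 5 ^ (a + 2 * b + 2) * 5 ^ (2 * a + 2 * b + 3) =
      5 ^ (5 * a + 9 * b + 9) := by
    rw [← pow_add, ← pow_add, ← pow_add, ← pow_add]; congr 1; ring
  have e2 : 5 ^ (6 * b + 4) * 5 ^ (4 * a + 2 * b + 4) * 5 ^ (a + b + 1) = 5 ^ (5 * a + 9 * b + 9) := by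
    rw [← pow_add, ← pow_add]; congr 1; ring
  have hP : 0 < 5 ^ (5 * a + 9 * b + 9) := by positivity
  -- signs
  have s1 : (-1 : ZMod 5) ^ (3 * b + 2) * (-1) ^ b * (-1) ^ (2 * a + b + 2) * (-1) ^ (a + 2 * b + 2) *
      (-1) ^ (2 * a + 2 * b + 3) = (-1) ^ (5 * a + 9 * b + 9) := by
    rw [← pow_add, ← pow_add, ← pow_add, ← pow_add]; congr 1; ring
  have s2 : (-1 : ZMod 5) ^ (6 * b + 4) * (-1) ^ (4 * a + 2 * b + 4) * (-1) ^ (a + b + 1) =
      (-1) ^ (5 * a + 9 * b + 9) := by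
    rw [← pow_add, ← pow_add]; congr 1; ring
  have ss : (-1 : ZMod 5) ^ (5 * a + 9 * b + 9) * (-1) ^ (5 * a + 9 * b + 9) = 1 := by
    rw [← mul_pow]; simp
  have m1 : (-1 : ZMod 5) ^ (3 * b + 2) = -(-1) ^ (3 * b + 1) := by
    rw [show 3 * b + 2 = (3 * b + 1) + 1 by ring, pow_succ]; ring
  have m2 : (-1 : ZMod 5) ^ (6 * b + 4) = -(-1) ^ (6 * b + 3) := by
    rw [show 6 * b + 4 = (6 * b + 3) + 1 by ring, pow_succ]; ring
  have r10 := R (2 * a + 2 * b + 3) 0 (by norm_num)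
  have r12 := R b 4 (by norm_num)
  have r22 := R (3 * b + 2) 2 (by norm_num)
  have r23 := R (2 * a + b + 2) 1 (by norm_num)
  have r24 := R (a + 2 * b + 2) 1 (by norm_num)
  have r25 := R (6 * b + 4) 4 (by norm_num)
  have r26 := R (4 * a + 2 * b + 4) 2 (by norm_num)
  have r27 := R (a + b + 1) 2 (by norm_num)
  have r51 := R (3 * b + 1) 4 (by norm_num)
  have r52 := R b 3 (by norm_num)
  have r53 := R (2 * a + b + 2) 2 (by norm_num)
  have r54 := R (a + 2 * b + 2) 0 (by norm_num)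
  have r56 := R (6 * b + 3) 3 (by norm_num)
  have r57 := R (4 * a + 2 * b + 4) 4 (by norm_num)
  have f0 : ((Nat.factorial 0 : ℕ) : ZMod 5) = 1 := by decide
  have f1 : ((Nat.factorial 1 : ℕ) : ZMod 5) = 1 := by decide
  have f2 : ((Nat.factorial 2 : ℕ) : ZMod 5) = 2 := by decide
  have f3 : ((Nat.factorial 3 : ℕ) : ZMod 5) = 1 := by decide
  have f4 : ((Nat.factorial 4 : ℕ) : ZMod 5) = -1 := by decide
  simp only [f0, f1, f2, f3, f4, mul_one] at r10 r12 r22 r23 r24 r25 r26 r27 r51 r52 r53 r54 r56 r57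
  clear R hU
  generalize U (2 * a + 2 * b + 3) 0 = u10 at *
  generalize U b 4 = u12 at *
  generalize U (3 * b + 2) 2 = u22 at *
  generalize U (2 * a + b + 2) 1 = u23 at *
  generalize U (a + 2 * b + 2) 1 = u24 at *
  generalize U (6 * b + 4) 4 = u25 at *
  generalize U (4 * a + 2 * b + 4) 2 = u26 at *
  generalize U (a + b + 1) 2 = u27 at *
  generalize U (3 * b + 1) 4 = v1 at *
  generalize U b 3 = v2 at *
  generalize U (2 * a + b + 2) 2 = v3 at *
  generalize U (a + 2 * b + 2) 0 = v4 at *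
  generalize U (6 * b + 3) 3 = v6 at *
  generalize U (4 * a + 2 * b + 4) 4 = v7 at *
  have hD : 0 < (3 * b + 2).factorial * b.factorial * (2 * a + b + 2).factorial * (a + 2 * b + 2).factorial *
      (2 * a + 2 * b + 3).factorial := by positivity
  generalize (3 * b + 2).factorial = g1 at *
  generalize (3 * b + 1).factorial = h1 at *
  generalize b.factorial = g2 at *
  generalize (2 * a + b + 2).factorial = g3 at *
  generalize (a + 2 * b + 2).factorial = g4 at *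
  generalize (2 * a + 2 * b + 3).factorial = g5 at *
  generalize (6 * b + 4).factorial = g6 at *
  generalize (6 * b + 3).factorial = h6 at *
  generalize (4 * a + 2 * b + 4).factorial = g7 at *
  generalize (a + b + 1).factorial = g8 at *
  generalize (5 : ℕ) ^ (5 * a + 9 * b + 9) = P at *
  generalize (5 : ℕ) ^ (3 * b + 2) = p1 at *
  generalize (5 : ℕ) ^ (3 * b + 1) = o1 at *
  generalize (5 : ℕ) ^ (2 * a + b + 2) = p3 at *
  generalize (5 : ℕ) ^ (a + 2 * b + 2) = p4 at *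
  generalize (5 : ℕ) ^ (2 * a + 2 * b + 3) = p5 at *
  generalize (5 : ℕ) ^ (6 * b + 4) = p6 at *
  generalize (5 : ℕ) ^ (6 * b + 3) = o6 at *
  generalize (5 : ℕ) ^ (4 * a + 2 * b + 4) = p7 at *
  generalize (5 : ℕ) ^ (a + b + 1) = p8 at *
  generalize (5 : ℕ) ^ b = p2 at *
  have E2 : y * (g1 * g2 * g3 * g4 * g5) * (u22 * u12 * u23 * u24 * u10) =
      (g6 * g7 * g8) * (u25 * u26 * u27) := by
    apply Nat.eq_of_mul_eq_mul_left hP
    calc P * (y * (g1 * g2 * g3 * g4 * g5) * (u22 * u12 * u23 * u24 * u10))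
        = y * (p1 * g1 * u22 * (p2 * g2 * u12 * (p3 * g3 * u23 * (p4 * g4 * u24 * (p5 * g5 * u10))))) := by
          rw [← e1]; ring
      _ = _ := hB34
      _ = P * ((g6 * g7 * g8) * (u25 * u26 * u27)) := by rw [← e2]; ring
  have E4 : 2 * w * (g1 * g2 * g3 * g4 * g5) * (v1 * v2 * v3 * v4 * u10) =
      (g6 * g7 * g8) * (v6 * v7 * u27) := by
    apply Nat.eq_of_mul_eq_mul_left hP
    calc P * (2 * w * (g1 * g2 * g3 * g4 * g5) * (v1 * v2 * v3 * v4 * u10))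
        = 5 * (6 * b + 4) *
          (w * (o1 * h1 * v1 * (p2 * g2 * v2 * (p3 * g3 * v3 * (p4 * g4 * v4 * (p5 * g5 * u10)))))) := by
          rw [← e1, k1, k3]; ring
      _ = 5 * (6 * b + 4) * _ := by rw [hB43]
      _ = P * ((g6 * g7 * g8) * (v6 * v7 * u27)) := by rw [← e2, k2, k4]; ring
  have F4 : 2 * w * (v1 * v2 * v3 * v4 * u10) * (u25 * u26 * u27) =
      (v6 * v7 * u27) * (y * (u22 * u12 * u23 * u24 * u10)) := by
    apply Nat.eq_of_mul_eq_mul_left hD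
    calc g1 * g2 * g3 * g4 * g5 * (2 * w * (v1 * v2 * v3 * v4 * u10) * (u25 * u26 * u27))
        = (2 * w * (g1 * g2 * g3 * g4 * g5) * (v1 * v2 * v3 * v4 * u10)) * (u25 * u26 * u27) := by ring
      _ = (v6 * v7 * u27) * ((g6 * g7 * g8) * (u25 * u26 * u27)) := by rw [E4]; ring
      _ = _ := by rw [← E2]; ring
  have G4 := congrArg (fun n : ℕ => (n : ZMod 5)) F4
  have h5 : (5 : ZMod 5) = 0 := by decide
  simp only [Nat.cast_mul, Nat.cast_ofNat] at G4
  rw [r10, r12, r22, r23, r24, r25, r26, r27, r51, r52, r53, r54, r56, r57] at G4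
  rw [m1] at s1
  rw [m2] at s2
  rw [m1, m2] at G4
  clear F4 E2 E4 hB34 hB43 hD hP e1 e2 k1 k2 k3 k4
  generalize (-1 : ZMod 5) ^ (5 * a + 9 * b + 9) = s at *
  generalize (-1 : ZMod 5) ^ (3 * b + 1) = t1 at *
  generalize (-1 : ZMod 5) ^ (2 * a + b + 2) = t3 at *
  generalize (-1 : ZMod 5) ^ (a + 2 * b + 2) = t4 at *
  generalize (-1 : ZMod 5) ^ (2 * a + 2 * b + 3) = t5 at *
  generalize (-1 : ZMod 5) ^ (6 * b + 3) = t6 at *
  generalize (-1 : ZMod 5) ^ (4 * a + 2 * b + 4) = t7 at *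
  generalize (-1 : ZMod 5) ^ (a + b + 1) = t8 at *
  generalize (-1 : ZMod 5) ^ b = t2 at *
  have q4 : (w : ZMod 5) * (-16) * (-t1 * t2 * t3 * t4 * t5) * (-t6 * t7 * t8) =
      (-4) * (y : ZMod 5) * (-t1 * t2 * t3 * t4 * t5) * (-t6 * t7 * t8) := by linear_combination G4
  rw [s1, s2] at q4
  linear_combination (-1) * q4 - (16 * (w : ZMod 5) - 4 * y) * ss - (3 * w - y : ZMod 5) * h5

end Pool.Agent.Q33.R154
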