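import Pool.Agent.Q33.R154.Stmts

set_option autoImplicit false

/-! `4 (2 n + 1)` divides the weights. -/

namespace Pool.Agent.Q33.R154

open Finset Pool.Agent.Q33.Fam Nat

theorem taskF : TaskF := by
  intro n hn
  have h1 : (2 * n + 1) ∣ u6 n := by
    unfold u6
    exact Dvd.dvd.mul_left (choose3_dvd n) _
  have h2 : 4 ∣ u6 n := by
    have e : u6 n = (6 * n).choose (2 * n) * (4 * n).choose n := by
      unfold u6
      have h := Nat.choose_mul (n := 6 * n) (k := 3 * n) (s := 2 * n) (by omega)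
      rw [show 6 * n - 2 * n = 4 * n by omega, show 3 * n - 2 * n = n by omega] at h
      rw [← h, Nat.choose_symm_of_eq_add (show 3 * n = n + 2 * n by omega)]
    rw [e]
    apply Dvd.dvd.mul_left
    obtain ⟨m, rfl⟩ : ∃ m, n = m + 1 := ⟨n - 1, by omega⟩
    have h := Nat.add_one_mul_choose_eq (4 * m + 3) m
    rw [show 4 * m + 3 + 1 = 4 * (m + 1) by ring] at h
    refine ⟨(4 * m + 3).choose m, ?_⟩
    have h3 : (4 * (m + 1)).choose (m + 1) * (m + 1) = (4 * (4 * m + 3).choose m) * (m + 1) := by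
      rw [← h]; ring
    exact Nat.eq_of_mul_eq_mul_right (Nat.succ_pos m) h3
  have hc : Nat.Coprime 4 (2 * n + 1) := by
    have : Nat.Coprime (2 ^ 2) (2 * n + 1) := by
      apply Nat.Coprime.pow_left
      rw [Nat.coprime_comm]
      simp
    simpa using this
  exact Nat.Coprime.mul_dvd_of_dvd_of_dvd hc h2 h1

end Pool.Agent.Q33.R154
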