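import Pool.Agent.Q33.R154.Stmts

set_option autoImplicit false

/-! The values of the WZ pair. -/

namespace Pool.Agent.Q33.R154

open Finset Pool.Agent.Q33.Fam Nat

theorem fac_succ (n : ℕ) : (((n + 1).factorial : ℕ) : ℚ) = ((n : ℚ) + 1) * (n.factorial : ℚ) := by
  rw [Nat.factorial_succ]; push_cast; ring

theorem A_eq (hA : TaskLA) (k M : ℕ) : (A k M : ℚ) =
    (((6 * M + 2).factorial : ℚ) * ((4 * k + 2 * M + 1).factorial : ℚ) * ((k + M).factorial : ℚ)) /
    (((3 * M + 1).factorial : ℚ) * (M.factorial : ℚ) * ((2 * k + M).factorial : ℚ) *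
      ((k + 2 * M + 1).factorial : ℚ) * ((2 * k + 2 * M + 1).factorial : ℚ)) := by
  unfold A
  rw [Nat.cast_div (hA k M) (by exact_mod_cast fp_ne_zero _)]
  simp only [nA, dA, fp_cons, fp_nil]
  push_cast
  ring_nf

theorem B_eq (hB : TaskLB) (k M : ℕ) : (B k M : ℚ) =
    (((6 * M).factorial : ℚ) * ((4 * k + 2 * M + 2).factorial : ℚ) * ((k + M).factorial : ℚ)) /
    (((3 * M).factorial : ℚ) * (M.factorial : ℚ) * ((2 * k + M + 1).factorial : ℚ) *
      ((k + 2 * M).factorial : ℚ) * ((2 * k + 2 * M + 1).factorial : ℚ)) := by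
  unfold B
  rw [Nat.cast_div (hB k M) (by exact_mod_cast fp_ne_zero _)]
  simp only [nB, dB, fp_cons, fp_nil]
  push_cast
  ring_nf

theorem taskG : TaskG := by
  intro hA hB
  constructor
  · intro N
    have hw : ((w6 N : ℤ) : ℚ) = ((6 * N).factorial : ℚ) /
        (((3 * N).factorial : ℚ) * (N.factorial : ℚ) ^ 3) := by
      unfold w6 u6
      push_cast
      rw [cb_fact, Nat.cast_choose ℚ (show 3 * N ≤ 6 * N by omega),
        Nat.cast_choose ℚ (show N ≤ 3 * N by omega),
        show 6 * N - 3 * N = 3 * N by omega, show 3 * N - N = 2 * N by omega]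
      have h1 : ((3 * N).factorial : ℚ) ≠ 0 := by exact_mod_cast Nat.factorial_ne_zero _
      have h2 : (N.factorial : ℚ) ≠ 0 := by exact_mod_cast Nat.factorial_ne_zero _
      have h3 : ((2 * N).factorial : ℚ) ≠ 0 := by exact_mod_cast Nat.factorial_ne_zero _
      field_simp
    push_cast
    rw [hw]
    unfold ft
    have e1 : 4 * 0 + 2 * N = 2 * N := by omega
    have e2 : 0 + N = N := by omega
    simp only [e1, e2, fac_succ]
    have h1 : ((3 * N).factorial : ℚ) ≠ 0 := by exact_mod_cast Nat.factorial_ne_zero _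
    have h2 : (N.factorial : ℚ) ≠ 0 := by exact_mod_cast Nat.factorial_ne_zero _
    have h3 : ((2 * N).factorial : ℚ) ≠ 0 := by exact_mod_cast Nat.factorial_ne_zero _
    have h4 : (2 * (N : ℚ) + 1) ≠ 0 := by positivity
    push_cast
    field_simp
    ring
  · intro k M
    have hcb : ((cb (k + M + 1) : ℤ) : ℚ) = ((2 * k + 2 * M + 1 + 1).factorial : ℚ) /
        ((k + M + 1).factorial : ℚ) ^ 2 := by
      rw [cb_fact, show 2 * (k + M + 1) = 2 * k + 2 * M + 1 + 1 by omega]
    rw [A_eq hA, B_eq hB, hcb]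
    unfold gt
    rw [show 6 * M + 2 = 6 * M + 1 + 1 by omega, show 4 * k + 2 * M + 2 = 4 * k + 2 * M + 1 + 1 by omega,
      fac_succ (6 * M + 1), fac_succ (6 * M), fac_succ (4 * k + 2 * M + 1), fac_succ (3 * M),
      fac_succ (2 * k + M), fac_succ (k + 2 * M), fac_succ (2 * k + 2 * M + 1), fac_succ (k + M)]
    have n1 : ((6 * M).factorial : ℚ) ≠ 0 := by exact_mod_cast Nat.factorial_ne_zero _
    have n2 : ((4 * k + 2 * M + 1).factorial : ℚ) ≠ 0 := by exact_mod_cast Nat.factorial_ne_zero _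
    have n3 : ((3 * M).factorial : ℚ) ≠ 0 := by exact_mod_cast Nat.factorial_ne_zero _
    have n4 : (M.factorial : ℚ) ≠ 0 := by exact_mod_cast Nat.factorial_ne_zero _
    have n5 : ((k + M).factorial : ℚ) ≠ 0 := by exact_mod_cast Nat.factorial_ne_zero _
    have n6 : ((2 * k + M).factorial : ℚ) ≠ 0 := by exact_mod_cast Nat.factorial_ne_zero _
    have n7 : ((k + 2 * M).factorial : ℚ) ≠ 0 := by exact_mod_cast Nat.factorial_ne_zero _
    have n8 : ((2 * k + 2 * M + 1).factorial : ℚ) ≠ 0 := by exact_mod_cast Nat.factorial_ne_zero _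
    generalize ((6 * M).factorial : ℚ) = f1 at *
    generalize ((4 * k + 2 * M + 1).factorial : ℚ) = f2 at *
    generalize ((3 * M).factorial : ℚ) = f3 at *
    generalize (M.factorial : ℚ) = f4 at *
    generalize ((k + M).factorial : ℚ) = f5 at *
    generalize ((2 * k + M).factorial : ℚ) = f6 at *
    generalize ((k + 2 * M).factorial : ℚ) = f7 at *
    generalize ((2 * k + 2 * M + 1).factorial : ℚ) = f8 at *
    push_cast
    have p1 : (3 * (M : ℚ) + 1) ≠ 0 := by positivity
    have p2 : (2 * (k : ℚ) + M + 1) ≠ 0 := by positivity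
    have p3 : ((k : ℚ) + 2 * M + 1) ≠ 0 := by positivity
    have p4 : ((k : ℚ) + M + 1) ≠ 0 := by positivity
    field_simp
    ring

end Pool.Agent.Q33.R154
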