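import Pool.Agent.Q33.R154.Stmts

set_option autoImplicit false
set_option linter.all false

namespace Pool.Agent.Q33.R154.P34

open Pool.Agent.Q33.Fam Pool.Agent.Q33.R154

lemma w6_fact (k : ℕ) : ((w6 k : ℤ) : ℚ) =
    ((6 * k).factorial : ℚ) / (((3 * k).factorial : ℚ) * (k.factorial : ℚ) ^ 3) := by
  unfold w6 u6 cb
  push_cast
  rw [Nat.cast_choose ℚ (show k ≤ 2 * k by omega), Nat.cast_choose ℚ (show 3 * k ≤ 6 * k by omega),
    Nat.cast_choose ℚ (show k ≤ 3 * k by omega)]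
  have e1 : 2 * k - k = k := by omega
  have e2 : 6 * k - 3 * k = 3 * k := by omega
  have e3 : 3 * k - k = 2 * k := by omega
  rw [e1, e2, e3]
  have h1 : (k.factorial : ℚ) ≠ 0 := by exact_mod_cast Nat.factorial_ne_zero _
  have h2 : ((2 * k).factorial : ℚ) ≠ 0 := by exact_mod_cast Nat.factorial_ne_zero _
  have h3 : ((3 * k).factorial : ℚ) ≠ 0 := by exact_mod_cast Nat.factorial_ne_zero _
  field_simp

lemma w6_pos (k : ℕ) : 0 < w6 k := by
  unfold w6 u6
  have h1 := cb_pos k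
  have h2 : 0 < (6 * k).choose (3 * k) * (3 * k).choose k :=
    Nat.mul_pos (Nat.choose_pos (by omega)) (Nat.choose_pos (by omega))
  have h3 : (0 : ℤ) < (((6 * k).choose (3 * k) * (3 * k).choose k : ℕ) : ℤ) := by exact_mod_cast h2
  exact mul_pos h1 h3

lemma w6_rec (k : ℕ) : ((k : ℤ) + 1) ^ 3 * w6 (k + 1) = 24 * (6 * k + 1) * (2 * k + 1) * (6 * k + 5) * w6 k := by
  have h : ((((k : ℤ) + 1) ^ 3 * w6 (k + 1) : ℤ) : ℚ) = ((24 * (6 * k + 1) * (2 * k + 1) * (6 * k + 5) * w6 k : ℤ) : ℚ) := by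
    push_cast
    rw [w6_fact, w6_fact]
    have e1 : 6 * (k + 1) = 6 * k + 1 + 1 + 1 + 1 + 1 + 1 := by ring
    have e2 : 3 * (k + 1) = 3 * k + 1 + 1 + 1 := by ring
    rw [e1, e2, Nat.factorial_succ (6 * k + 1 + 1 + 1 + 1 + 1), Nat.factorial_succ (6 * k + 1 + 1 + 1 + 1),
      Nat.factorial_succ (6 * k + 1 + 1 + 1), Nat.factorial_succ (6 * k + 1 + 1), Nat.factorial_succ (6 * k + 1),
      Nat.factorial_succ (6 * k), Nat.factorial_succ (3 * k + 1 + 1), Nat.factorial_succ (3 * k + 1),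
      Nat.factorial_succ (3 * k), Nat.factorial_succ k]
    push_cast
    have h1 : (k.factorial : ℚ) ≠ 0 := by exact_mod_cast Nat.factorial_ne_zero _
    have h2 : ((k : ℚ) + 1) ≠ 0 := by positivity
    have h3 : ((3 * k).factorial : ℚ) ≠ 0 := by exact_mod_cast Nat.factorial_ne_zero _
    field_simp
    ring
  exact_mod_cast h

lemma w6_step (k : ℕ) : w6 (k + 1) ≤ 1728 * w6 k := by
  have h := w6_rec k
  have hp := w6_pos k
  have h1 : (24 * (6 * (k : ℤ) + 1) * (2 * k + 1) * (6 * k + 5)) ≤ 1728 * ((k : ℤ) + 1) ^ 3 := by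
    have : (0 : ℤ) ≤ k := by positivity
    nlinarith [mul_nonneg this this, mul_nonneg (mul_nonneg this this) this]
  have h2 : ((k : ℤ) + 1) ^ 3 * w6 (k + 1) ≤ ((k : ℤ) + 1) ^ 3 * (1728 * w6 k) := by
    rw [h]
    calc 24 * (6 * (k : ℤ) + 1) * (2 * k + 1) * (6 * k + 5) * w6 k ≤ (1728 * ((k : ℤ) + 1) ^ 3) * w6 k :=
          mul_le_mul_of_nonneg_right h1 hp.le
      _ = ((k : ℤ) + 1) ^ 3 * (1728 * w6 k) := by ring
  have h3 : (0 : ℤ) < ((k : ℤ) + 1) ^ 3 := by positivity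
  exact le_of_mul_le_mul_left h2 h3

theorem main : TaskP := by
  intro n
  have h := sign_alt 154 15 32768 w6 (by norm_num) ?_ ?_ n
  · exact h
  · intro k
    have := w6_pos k
    positivity
  · intro k
    have h1 := w6_step k
    have h2 := w6_pos k
    have h0 : (0 : ℤ) ≤ k := by positivity
    push_cast
    have h3 : (154 * ((k : ℤ) + 1) + 15) * w6 (k + 1) ≤ (154 * ((k : ℤ) + 1) + 15) * (1728 * w6 k) :=
      mul_le_mul_of_nonneg_left h1 (by positivity)
    have h4 : (154 * ((k : ℤ) + 1) + 15) * 1728 < 32768 * (154 * (k : ℤ) + 15) := by nlinarith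
    have h5 : (154 * ((k : ℤ) + 1) + 15) * (1728 * w6 k) < 32768 * ((154 * (k : ℤ) + 15) * w6 k) := by
      have := mul_lt_mul_of_pos_right h4 h2
      nlinarith
    linarith

end Pool.Agent.Q33.R154.P34

theorem Pool.Agent.Q33.R154.taskP : Pool.Agent.Q33.R154.TaskP := Pool.Agent.Q33.R154.P34.main
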