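import Pool.Agent.Q33.R154.Stmts

set_option autoImplicit false

namespace Pool.Agent.Q33.R154

open Finset

/-- the part prime to `5` of the factorial of `5 q` -/
private def PU (q : ℕ) : ℕ := ∏ j ∈ range q, ((5 * j + 1) * (5 * j + 2) * (5 * j + 3) * (5 * j + 4))

private lemma fact_PU (q : ℕ) : (5 * q).factorial = 5 ^ q * q.factorial * PU q := by
  induction q with
  | zero => simp [PU]
  | succ q ih =>
    have h : (5 * (q + 1)).factorial =
        (5 * q + 5) * ((5 * q + 4) * ((5 * q + 3) * ((5 * q + 2) * ((5 * q + 1) * (5 * q).factorial)))) := by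
      rw [show 5 * (q + 1) = 5 * q + 4 + 1 by ring, Nat.factorial_succ, Nat.factorial_succ,
        Nat.factorial_succ, Nat.factorial_succ, Nat.factorial_succ]
    rw [h, ih, Nat.factorial_succ, pow_succ]
    unfold PU
    rw [prod_range_succ]
    ring

private lemma PU_mod (q : ℕ) : ((PU q : ℕ) : ZMod 5) = (-1) ^ q := by
  have h5 : (5 : ZMod 5) = 0 := by decide
  unfold PU
  push_cast
  have : ∀ j ∈ range q, ((5 * (j : ZMod 5) + 1) * (5 * (j : ZMod 5) + 2) * (5 * (j : ZMod 5) + 3) *
      (5 * (j : ZMod 5) + 4)) = -1 := by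
    intro j _
    rw [h5]
    simp only [zero_mul, zero_add]
    decide
  rw [prod_congr rfl this]
  simp

theorem taskU : TaskU := by
  refine ⟨fun q r => PU q * ∏ i ∈ range r, (5 * q + i + 1), fun q r hr => ⟨?_, ?_⟩⟩
  · have h : ∀ r : ℕ, (5 * q + r).factorial = (5 * q).factorial * ∏ i ∈ range r, (5 * q + i + 1) := by
      intro r
      induction r with
      | zero => simp
      | succ r ih =>
        rw [← add_assoc, Nat.factorial_succ, ih, prod_range_succ]
        ring
    rw [h r, fact_PU]
    ring
  · have h5 : (5 : ZMod 5) = 0 := by decide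
    push_cast
    rw [PU_mod]
    congr 1
    have h : ∀ r : ℕ, (∏ i ∈ range r, (5 * (q : ZMod 5) + (i : ZMod 5) + 1)) = ((r.factorial : ℕ) : ZMod 5) := by
      intro r
      induction r with
      | zero => simp
      | succ r ih =>
        rw [prod_range_succ, ih, Nat.factorial_succ, h5]
        push_cast
        ring
    exact h r

end Pool.Agent.Q33.R154
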