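import Pool.Agent.Q33.R154.Stmts

set_option autoImplicit false

namespace Pool.Agent.Q33.R154

open Finset Pool.Agent.Q33.Fam

private lemma u6_fp (n : ℕ) : u6 n * fp [3 * n, 2 * n, n] = fp [6 * n] := by
  unfold u6
  have h1 := Nat.choose_mul_factorial_mul_factorial (show 3 * n ≤ 6 * n by omega)
  have h2 := Nat.choose_mul_factorial_mul_factorial (show n ≤ 3 * n by omega)
  rw [show 6 * n - 3 * n = 3 * n by omega] at h1
  rw [show 3 * n - n = 2 * n by omega] at h2
  simp only [fp_cons, fp_nil, mul_one]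
  calc (6 * n).choose (3 * n) * (3 * n).choose n * ((3 * n).factorial * ((2 * n).factorial * n.factorial))
      = (6 * n).choose (3 * n) * (3 * n).factorial * ((3 * n).choose n * n.factorial * (2 * n).factorial) := by ring
    _ = (6 * n).factorial := by rw [h2, h1]

private lemma u6_ne (n : ℕ) : u6 n ≠ 0 := by
  intro h
  have := u6_fp n
  rw [h, zero_mul] at this
  exact fp_ne_zero _ this.symm

/-- the summand -/
private def ph (n q : ℕ) : ℕ := 6 * n / q - (3 * n / q + 2 * n / q + n / q)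

private lemma ph_add (n q : ℕ) (hq : 0 < q) :
    fs [3 * n, 2 * n, n] q + ph n q = fs [6 * n] q := by
  simp only [fs_cons, fs_nil, add_zero]
  unfold ph
  have : 3 * n / q + (2 * n / q + n / q) ≤ 6 * n / q := by
    rw [Nat.le_div_iff_mul_le hq]
    have h1 := Nat.div_mul_le_self (3 * n) q
    have h2 := Nat.div_mul_le_self (2 * n) q
    have h3 := Nat.div_mul_le_self n q
    nlinarith
  omega

private lemma u6_val (n B : ℕ) (hB : 6 * n < B) :
    padicValNat 5 (u6 n) = ∑ i ∈ Ico 1 B, ph n (5 ^ i) := by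
  have : Fact (Nat.Prime 5) := ⟨by norm_num⟩
  have h := congrArg (padicValNat 5) (u6_fp n)
  rw [padicValNat.mul (u6_ne n) (fp_ne_zero _),
    fp_val 5 (by norm_num) [3 * n, 2 * n, n] B (by simp; omega),
    fp_val 5 (by norm_num) [6 * n] B (by simp; omega)] at h
  have h2 : ∑ i ∈ Ico 1 B, fs [3 * n, 2 * n, n] (5 ^ i) + ∑ i ∈ Ico 1 B, ph n (5 ^ i) =
      ∑ i ∈ Ico 1 B, fs [6 * n] (5 ^ i) := by
    rw [← sum_add_distrib]
    exact sum_congr rfl fun i _ => ph_add n (5 ^ i) (by positivity)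
  omega

/-- `1 ≤ φ` if the fractional part of `n / q` is at least `1/6` -/
private lemma ph_pos (n q : ℕ) (hq : 0 < q) (h : q ≤ 6 * (n % q)) : 1 ≤ ph n q := by
  unfold ph
  set a := n / q with ha
  set r := n % q with hr
  have hn : n = q * a + r := (Nat.div_add_mod n q).symm
  have hrq : r < q := Nat.mod_lt _ hq
  have e6 : 6 * n / q = 6 * a + 6 * r / q := by
    rw [hn, show 6 * (q * a + r) = 6 * r + q * (6 * a) by ring, Nat.add_mul_div_left _ _ hq]; ring
  have e3 : 3 * n / q = 3 * a + 3 * r / q := by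
    rw [hn, show 3 * (q * a + r) = 3 * r + q * (3 * a) by ring, Nat.add_mul_div_left _ _ hq]; ring
  have e2 : 2 * n / q = 2 * a + 2 * r / q := by
    rw [hn, show 2 * (q * a + r) = 2 * r + q * (2 * a) by ring, Nat.add_mul_div_left _ _ hq]; ring
  rw [e6, e3, e2]
  have key : 3 * r / q + 2 * r / q + 1 ≤ 6 * r / q := by
    have h3 : 3 * r / q < 3 := by rw [Nat.div_lt_iff_lt_mul hq]; omega
    have h2 : 2 * r / q < 2 := by rw [Nat.div_lt_iff_lt_mul hq]; omega
    rw [Nat.le_div_iff_mul_le hq]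
    have g3 := Nat.div_mul_le_self (3 * r) q
    have g2 := Nat.div_mul_le_self (2 * r) q
    interval_cases (3 * r / q) <;> interval_cases (2 * r / q) <;> omega
  omega

private lemma ph_of_dvd (n i : ℕ) (hi : 1 ≤ i) (h : 5 ^ i ∣ 2 * n + 1) : 1 ≤ ph n (5 ^ i) := by
  have hq : 0 < 5 ^ i := by positivity
  have h5 : 5 ≤ 5 ^ i := by
    calc 5 = 5 ^ 1 := (pow_one 5).symm
      _ ≤ 5 ^ i := Nat.pow_le_pow_right (by norm_num) hi
  apply ph_pos n _ hq
  generalize 5 ^ i = q at *
  have hr : n % q < q := Nat.mod_lt _ hq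
  have h1 : q ∣ 2 * (n % q) + 1 := by
    have h2 : 2 * n + 1 = q * (2 * (n / q)) + (2 * (n % q) + 1) := by
      have := Nat.div_add_mod n q
      calc 2 * n + 1 = 2 * (q * (n / q) + n % q) + 1 := by rw [this]
        _ = _ := by ring
    rw [h2] at h
    exact (Nat.dvd_add_right (Dvd.intro _ rfl)).mp h
  obtain ⟨c, hc⟩ := h1
  have hc1 : c = 1 := by
    rcases Nat.lt_or_ge c 1 with h0 | h0
    · have : c = 0 := by omega
      subst this
      omega
    · rcases Nat.lt_or_ge c 2 with h2 | h2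
      · omega
      · have : q * 2 ≤ q * c := Nat.mul_le_mul_left _ h2
        omega
  subst hc1
  omega

theorem taskV : TaskV := by
  intro n hn hne
  have : Fact (Nat.Prime 5) := ⟨by norm_num⟩
  set j := padicValNat 5 (2 * n + 1) with hj
  have hdj : 5 ^ j ∣ 2 * n + 1 := pow_padicValNat_dvd
  set k := Nat.log 5 n + 1 with hk
  have hnk : n < 5 ^ k := Nat.lt_pow_succ_log_self (by norm_num) n
  have hkn : 5 ^ Nat.log 5 n ≤ n := Nat.pow_log_le_self 5 (by omega)
  have hjk : j < k := by
    by_contra hcon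
    push Not at hcon
    have hd : 5 ^ k ∣ 2 * n + 1 := (pow_dvd_pow 5 hcon).trans hdj
    apply hne k
    obtain ⟨c, hc⟩ := hd
    generalize 5 ^ k = q at *
    have hc1 : c = 1 := by
      rcases Nat.lt_or_ge c 1 with h0 | h0
      · have : c = 0 := by omega
        subst this
        omega
      · rcases Nat.lt_or_ge c 2 with h2 | h2
        · omega
        · have : q * 2 ≤ q * c := Nat.mul_le_mul_left _ h2
          omega
    subst hc1
    omega
  have hpk : 1 ≤ ph n (5 ^ k) := by
    apply ph_pos n _ (by positivity)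
    rw [Nat.mod_eq_of_lt hnk, hk, pow_succ]
    omega
  have hlog : Nat.log 5 n ≤ n := Nat.log_le_self 5 n
  rw [u6_val n (6 * n + 1) (by omega)]
  have hsub : insert k (Ico 1 (j + 1)) ⊆ Ico 1 (6 * n + 1) := by
    intro i hi
    rw [mem_insert, mem_Ico] at hi
    rw [mem_Ico]
    omega
  have hcard : (insert k (Ico 1 (j + 1))).card = j + 1 := by
    rw [card_insert_of_notMem (by rw [mem_Ico]; omega), Nat.card_Ico]
    omega
  calc j + 1 = ∑ _i ∈ insert k (Ico 1 (j + 1)), 1 := by rw [← card_eq_sum_ones, hcard]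
    _ ≤ ∑ i ∈ insert k (Ico 1 (j + 1)), ph n (5 ^ i) := by
        apply sum_le_sum
        intro i hi
        rw [mem_insert, mem_Ico] at hi
        rcases hi with rfl | hi
        · exact hpk
        · exact ph_of_dvd n i hi.1 ((pow_dvd_pow 5 (by omega)).trans hdj)
    _ ≤ ∑ i ∈ Ico 1 (6 * n + 1), ph n (5 ^ i) := sum_le_sum_of_subset hsub

end Pool.Agent.Q33.R154
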