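import Pool.Agent.Q33.R154.Stmts

set_option autoImplicit false

/-! The 5-adic valuation of the weights for `2 n + 1 = 5 ^ j`. -/

namespace Pool.Agent.Q33.R154

open Finset Pool.Agent.Q33.Fam Nat

theorem u6_fp (n : ℕ) : u6 n * fp [3 * n, 2 * n, n] = fp [6 * n] := by
  have h1 := Nat.choose_mul_factorial_mul_factorial (n := 6 * n) (k := 3 * n) (by omega)
  have h2 := Nat.choose_mul_factorial_mul_factorial (n := 3 * n) (k := n) (by omega)
  rw [show 6 * n - 3 * n = 3 * n by omega] at h1
  rw [show 3 * n - n = 2 * n by omega] at h2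
  unfold u6
  simp only [fp_cons, fp_nil, mul_one]
  calc (6 * n).choose (3 * n) * (3 * n).choose n * ((3 * n)! * ((2 * n)! * n !))
      = (6 * n).choose (3 * n) * (3 * n)! * ((3 * n).choose n * n ! * (2 * n)!) := by ring
    _ = (6 * n)! := by rw [h2, h1]

theorem div_eq' (m q k : ℕ) (h1 : k * q ≤ m) (h2 : m < (k + 1) * q) : m / q = k :=
  Nat.div_eq_of_lt_le h1 h2

theorem floors (n j i : ℕ) (h : 2 * n + 1 = 5 ^ j) (hi : 1 ≤ i) :
    fs [6 * n] (5 ^ i) = fs [3 * n, 2 * n, n] (5 ^ i) + if i ≤ j then 1 else 0 := by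
  simp only [fs_cons, fs_nil, add_zero]
  split_ifs with hij
  · obtain ⟨r, hr⟩ : Odd (5 ^ i) := Odd.pow (by decide)
    obtain ⟨s, hs⟩ : Odd (5 ^ (j - i)) := Odd.pow (by decide)
    have h5 : 5 ^ 1 ≤ 5 ^ i := Nat.pow_le_pow_right (by norm_num) hi
    have hr2 : 2 ≤ r := by omega
    have hn : n = 2 * (r * s) + s + r := by
      have h6 : 5 ^ j = (2 * r + 1) * (2 * s + 1) := by
        rw [← hr, ← hs, ← pow_add]; congr 1; omega
      have h7 : (2 * r + 1) * (2 * s + 1) = 4 * (r * s) + 2 * r + 2 * s + 1 := by ring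
      omega
    rw [hr]
    have a1 : 6 * n / (2 * r + 1) = 6 * s + 2 := by
      apply div_eq'
      · have : (6 * s + 2) * (2 * r + 1) = 12 * (r * s) + 6 * s + 4 * r + 2 := by ring
        omega
      · have : (6 * s + 2 + 1) * (2 * r + 1) = 12 * (r * s) + 6 * s + 6 * r + 3 := by ring
        omega
    have a2 : 3 * n / (2 * r + 1) = 3 * s + 1 := by
      apply div_eq'
      · have : (3 * s + 1) * (2 * r + 1) = 6 * (r * s) + 3 * s + 2 * r + 1 := by ring
        omega
      · have : (3 * s + 1 + 1) * (2 * r + 1) = 6 * (r * s) + 3 * s + 4 * r + 2 := by ring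
        omega
    have a3 : 2 * n / (2 * r + 1) = 2 * s := by
      apply div_eq'
      · have : (2 * s) * (2 * r + 1) = 4 * (r * s) + 2 * s := by ring
        omega
      · have : (2 * s + 1) * (2 * r + 1) = 4 * (r * s) + 2 * s + 2 * r + 1 := by ring
        omega
    have a4 : n / (2 * r + 1) = s := by
      apply div_eq'
      · have : s * (2 * r + 1) = 2 * (r * s) + s := by ring
        omega
      · have : (s + 1) * (2 * r + 1) = 2 * (r * s) + s + 2 * r + 1 := by ring
        omega
    rw [a1, a2, a3, a4]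
    ring
  · have h5 : 5 ^ (j + 1) ≤ 5 ^ i := Nat.pow_le_pow_right (by norm_num) (by omega)
    rw [pow_succ, ← h] at h5
    rw [Nat.div_eq_of_lt (show 6 * n < 5 ^ i by omega), Nat.div_eq_of_lt (show 3 * n < 5 ^ i by omega),
      Nat.div_eq_of_lt (show 2 * n < 5 ^ i by omega), Nat.div_eq_of_lt (show n < 5 ^ i by omega)]

theorem taskVp : TaskVp := by
  intro n j h
  have h5 : Nat.Prime 5 := by norm_num
  have := Fact.mk h5
  have key := u6_fp n
  have hne : u6 n ≠ 0 := by
    intro h0
    rw [h0, zero_mul] at key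
    exact fp_ne_zero _ key.symm
  have hv := congrArg (padicValNat 5) key
  rw [padicValNat.mul hne (fp_ne_zero _),
    fp_val 5 h5 [3 * n, 2 * n, n] (6 * n + 1) (by
      intro a ha
      simp only [List.mem_cons, List.not_mem_nil, or_false] at ha
      omega),
    fp_val 5 h5 [6 * n] (6 * n + 1) (by
      intro a ha
      simp only [List.mem_cons, List.not_mem_nil, or_false] at ha
      omega)] at hv
  have hs : ∑ i ∈ Finset.Ico 1 (6 * n + 1), fs [6 * n] (5 ^ i) =
      ∑ i ∈ Finset.Ico 1 (6 * n + 1), fs [3 * n, 2 * n, n] (5 ^ i) + j := by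
    rw [Finset.sum_congr rfl fun i hi => floors n j i h (Finset.mem_Ico.1 hi).1,
      Finset.sum_add_distrib]
    congr 1
    rw [Finset.sum_ite, Finset.sum_const_zero, add_zero, Finset.sum_const, smul_eq_mul, mul_one]
    have hj : j < 5 ^ j := Nat.lt_pow_self (by norm_num)
    have : (Finset.Ico 1 (6 * n + 1)).filter (fun i => i ≤ j) = Finset.Ico 1 (j + 1) := by
      ext i
      simp only [Finset.mem_filter, Finset.mem_Ico]
      omega
    rw [this, Nat.card_Ico]
    omega
  omega

end Pool.Agent.Q33.R154
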