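import Pool.Agent.Q33.R154.Stmts

set_option autoImplicit false

namespace Pool.Agent.Q33.R154

open Finset Pool.Agent.Q33.Fam

private lemma sum5 {R : Type} [AddCommMonoid R] (f : ℕ → R) (N : ℕ) :
    ∑ K ∈ range (5 * N), f K =
      ∑ a ∈ range N, (f (5 * a) + f (5 * a + 1) + f (5 * a + 2) + (f (5 * a + 3) + f (5 * a + 4))) := by
  induction N with
  | zero => simp
  | succ N ih =>
    rw [show 5 * (N + 1) = 5 * N + 1 + 1 + 1 + 1 + 1 by ring, sum_range_succ, sum_range_succ,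
      sum_range_succ, sum_range_succ, sum_range_succ, sum_range_succ, ih]
    simp only [add_assoc]

private lemma pw3 (a : ℕ) : (-512 : ZMod 5) ^ a = 3 ^ a := by
  congr 1

private lemma pw (a : ℕ) : (-512 : ZMod 5) ^ (5 * a) = 3 ^ a := by
  rw [pow_mul]
  congr 1

/-- the summand modulo 5 -/
private def g (n K : ℕ) : ZMod 5 :=
  (-512 : ZMod 5) ^ K * (16 * ((B K (n - 1 - K) : ℕ) : ZMod 5) - ((A K (n - 1 - K) : ℕ) : ZMod 5))

theorem taskX : TaskX := by
  intro h N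
  have key : ∀ n : ℕ, ((X n : ℤ) : ZMod 5) = ∑ K ∈ range n, g n K := by
    intro n
    unfold X g
    push_cast
    rfl
  rw [key, key]
  have low : ∀ a, a ≤ N → g (5 * N + 3) (5 * a) + g (5 * N + 3) (5 * a + 1) + g (5 * N + 3) (5 * a + 2) =
      g (N + 1) a := by
    intro a ha
    obtain ⟨b, rfl⟩ := Nat.exists_eq_add_of_le ha
    have e0 : 5 * (a + b) + 3 - 1 - 5 * a = 5 * b + 2 := by omega
    have e1 : 5 * (a + b) + 3 - 1 - (5 * a + 1) = 5 * b + 1 := by omega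
    have e2 : 5 * (a + b) + 3 - 1 - (5 * a + 2) = 5 * b := by omega
    have e3 : a + b + 1 - 1 - a = b := by omega
    obtain ⟨⟨h1, h2⟩, ⟨h3, h4⟩, ⟨h5, h6⟩, -, -⟩ := h a b
    unfold g
    rw [e0, e1, e2, e3, h1, h2, h3, h4, h5, h6, pw3 a, pow_add, pow_add, pw a]
    generalize (3 : ZMod 5) ^ a = z
    generalize ((A a b : ℕ) : ZMod 5) = x
    generalize ((B a b : ℕ) : ZMod 5) = y
    revert x y z
    decide
  have high : ∀ a, a < N → g (5 * N + 3) (5 * a + 3) + g (5 * N + 3) (5 * a + 4) = 0 := by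
    intro a ha
    obtain ⟨b, hb⟩ : ∃ b, N = a + b + 1 := ⟨N - a - 1, by omega⟩
    subst hb
    have e3 : 5 * (a + b + 1) + 3 - 1 - (5 * a + 3) = 5 * b + 4 := by omega
    have e4 : 5 * (a + b + 1) + 3 - 1 - (5 * a + 4) = 5 * b + 3 := by omega
    obtain ⟨-, -, -, ⟨h1, h2⟩, h3⟩ := h a b
    unfold g
    rw [e3, e4, h1, h2, h3, pow_add, pow_add, pw]
    generalize (3 : ZMod 5) ^ a = z
    generalize ((B (5 * a + 3) (5 * b + 4) : ℕ) : ZMod 5) = y
    revert y z
    decide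
  have e : ∑ K ∈ range (5 * N + 3), g (5 * N + 3) K =
      ∑ K ∈ range (5 * N), g (5 * N + 3) K + (g (5 * N + 3) (5 * N) + g (5 * N + 3) (5 * N + 1) +
        g (5 * N + 3) (5 * N + 2)) := by
    rw [sum_range_succ _ (5 * N + 2), sum_range_succ _ (5 * N + 1), sum_range_succ _ (5 * N)]
    ring
  rw [e, sum5, low N le_rfl, sum_range_succ]
  congr 1
  apply sum_congr rfl
  intro a ha
  rw [mem_range] at ha
  rw [low a ha.le, high a ha, add_zero]

end Pool.Agent.Q33.R154
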